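import Pool.Agent.E8helper90.GL.Vsp
import Pool.Agent.E8helper90.AF.Abs

/-!
Points of cubics and units in a differential field, and the directions of their flows.
-/

set_option autoImplicit false

namespace Pool.Agent.E8helper90.AF

open Pool.Agent.E8helper90.GL (Elem span_elem ker_clo exists_der_clo kerF mem_kerF chain_alg)
open Pool.Agent.TH600.LC (clo mem_clo inv_mem_clo subset_clo clo_le clo_mono adjoin_le_clo
  der_mem_clo)

variable {k K : Type} [Field k] [Field K] [Algebra k K]

/-- a derivation that kills an intermediate field -/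
def liftDer (E : Derivation k K K) (F : IntermediateField k K) (hF : ∀ x ∈ F, E x = 0) :
    Derivation F K K := Derivation.mk'
  { toFun := E
    map_add' := E.map_add
    map_smul' := fun c y => by
      rw [Algebra.smul_def, E.leibniz]
      have h1 : E (algebraMap F K c) = 0 := hF _ c.2
      rw [h1, smul_zero, add_zero, RingHom.id_apply, smul_eq_mul, Algebra.smul_def] }
  (fun a b => E.leibniz a b)

theorem liftDer_apply (E : Derivation k K K) (F : IntermediateField k K) (hF : ∀ x ∈ F, E x = 0)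
    (x : K) : liftDer E F hF x = E x := rfl

/-- algebraic elements over smaller rings -/
theorem isAlgebraic_of_le {F : IntermediateField k K} {A : Subalgebra F K}
    {S : IntermediateField k K} (h : ∀ z ∈ A, z ∈ S) {x : K} (hx : IsAlgebraic A x) :
    IsAlgebraic S x := by
  obtain ⟨p, hp, hp0⟩ := hx
  let φ : A →+* S :=
    { toFun := fun z => ⟨z.1, h z.1 z.2⟩
      map_one' := rfl
      map_mul' := fun _ _ => rfl
      map_zero' := rfl
      map_add' := fun _ _ => rfl }
  have hφ : Function.Injective φ := by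
    intro a b hab
    have : (φ a : K) = (φ b : K) := congrArg _ hab
    exact Subtype.ext this
  refine ⟨p.map φ, (Polynomial.map_ne_zero_iff hφ).2 hp, ?_⟩
  rw [← hp0, Polynomial.aeval_def, Polynomial.aeval_def, Polynomial.eval₂_map]
  rfl

/-- points of cubics and units in a differential field -/
structure Dat (k K : Type) [Field k] [Field K] [Algebra k K] (τ σ : Type) where
  /-- the derivation -/
  D : Derivation k K K
  /-- the field of the coefficients -/
  S : IntermediateField k K
  /-- first coordinates -/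
  x : τ → K
  /-- second coordinates -/
  y : τ → K
  /-- coefficients of the cubics -/
  a : τ → K
  /-- coefficients of the cubics -/
  b : τ → K
  /-- units -/
  u : σ → K
  /-- speeds -/
  c : τ → K
  /-- speeds -/
  e : σ → K
  kerS : ∀ z, D z = 0 → z ∈ S
  stable : ∀ z ∈ S, D z ∈ S
  closed : ∀ z, IsAlgebraic S z → z ∈ S
  cS : ∀ j, c j ∈ S
  eS : ∀ j, e j ∈ S
  hxy : ∀ j, y j ^ 2 = x j ^ 3 + a j * x j + b j
  Da : ∀ j, D (a j) = 0
  Db : ∀ j, D (b j) = 0
  Dx : ∀ j, D (x j) = c j * y j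
  u0 : ∀ j, u j ≠ 0
  Du : ∀ j, D (u j) = e j * u j

/-- iterated normalised derivatives -/
def ch (D : Derivation k K K) (c : K) (x : K) (i : ℕ) : K := (fun z => c⁻¹ * D z)^[i] x

theorem ch_zero (D : Derivation k K K) (c : K) (x : K) : ch D c x 0 = x := rfl

theorem ch_succ (D : Derivation k K K) (c : K) (x : K) (i : ℕ) :
    ch D c x (i + 1) = c⁻¹ * D (ch D c x i) := by
  unfold ch
  rw [Function.iterate_succ_apply']

theorem ch_of_zero (D : Derivation k K K) (c : K) {x : K} (hx : D x = 0) (i : ℕ) :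
    ch D c x (i + 1) = 0 := by
  induction i with
  | zero => rw [ch_succ, ch_zero, hx, mul_zero]
  | succ i ih => rw [ch_succ, ih, map_zero, mul_zero]

theorem D_ch (D : Derivation k K K) {c x : K} (h : c = 0 → D x = 0) (i : ℕ) :
    D (ch D c x i) = c * ch D c x (i + 1) := by
  by_cases hc : c = 0
  · cases i with
    | zero => rw [ch_zero, h hc, hc, zero_mul]
    | succ i => rw [ch_of_zero D c (h hc) i, map_zero, hc, zero_mul]
  · rw [ch_succ, ← mul_assoc, mul_inv_cancel₀ hc, one_mul]

namespace Dat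

variable {τ σ : Type} (G : Dat k K τ σ)

/-- the field of the constants -/
abbrev k0 : IntermediateField k K := kerF G.D

/-- the generators -/
def gx (s : τ ⊕ σ) : K := Sum.elim G.x G.u s

/-- the other generators -/
def gy (s : τ ⊕ σ) : K := Sum.elim G.y G.u s

/-- the speeds -/
def gc (s : τ ⊕ σ) : K := Sum.elim G.c G.e s

theorem gD (s : τ ⊕ σ) : G.D (G.gx s) = G.gc s * G.gy s := by
  rcases s with j | j
  · exact G.Dx j
  · exact G.Du j

theorem gcS (s : τ ⊕ σ) : G.gc s ∈ G.S := by
  rcases s with j | j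
  · exact G.cS j
  · exact G.eS j

theorem k0_le {z : K} (hz : z ∈ G.k0) : z ∈ G.S := G.kerS z hz

theorem mem_clo_gy (s : τ ⊕ σ) : G.gy s ∈ clo G.k0 {G.gx s} := by
  rcases s with j | j
  · have h1 : G.y j ^ 2 ∈ clo G.k0 {G.x j} := by
      rw [G.hxy]
      have h2 : G.x j ∈ clo G.k0 {G.x j} := subset_clo _ rfl
      refine Subalgebra.add_mem _ (Subalgebra.add_mem _ (Subalgebra.pow_mem _ h2 3)
        (Subalgebra.mul_mem _ ?_ h2)) ?_
      · exact Subalgebra.algebraMap_mem _ (⟨G.a j, G.Da j⟩ : G.k0)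
      · exact Subalgebra.algebraMap_mem _ (⟨G.b j, G.Db j⟩ : G.k0)
    have h2 := mem_clo.1 h1
    exact mem_clo.2 (h2.of_pow (by norm_num))
  · exact subset_clo _ rfl

/-- the algebraic data -/
noncomputable def ab [CharZero k] : AB G.k0 K (τ ⊕ σ) where
  D := liftDer G.D G.k0 fun x hx => hx
  S := G.S
  X := fun s => ch G.D (G.gc s.1) (G.gx s.1) s.2
  c := G.gc
  nd := fun s => G.D (G.gx s) ≠ 0
  stable := G.stable
  closed := by
    intro x hx
    refine G.closed x (isAlgebraic_of_le (A := Algebra.adjoin G.k0 (G.S : Set K)) ?_ (mem_clo.1 hx))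
    intro z hz
    induction hz using Algebra.adjoin_induction with
    | mem x hx => exact hx
    | algebraMap r => exact G.k0_le r.2
    | add x y hx hy ihx ihy => exact G.S.add_mem ihx ihy
    | mul x y hx hy ihx ihy => exact G.S.mul_mem ihx ihy
  cS := G.gcS
  DX := by
    intro j i
    exact D_ch G.D (fun h => by rw [G.gD, h, zero_mul]) i
  nd_c := by
    intro j hj h
    exact hj (by rw [G.gD, h, zero_mul])
  nd_X := by
    intro j hj
    have hc : G.gc j ≠ 0 := fun h => hj (by rw [G.gD, h, zero_mul])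
    change ch G.D (G.gc j) (G.gx j) (0 + 1) ≠ 0
    rw [ch_succ, ch_zero]
    exact mul_ne_zero (inv_ne_zero hc) hj
  nnd := by
    intro j hj i
    have hj' : G.D (G.gx j) = 0 := not_not.1 hj
    cases i with
    | zero => exact ⟨⟨G.gx j, hj'⟩, rfl⟩
    | succ i =>
      refine ⟨0, ?_⟩
      rw [map_zero]
      exact ch_of_zero G.D _ hj' i
  alg := by
    intro j hj i
    have hc : G.gc j ≠ 0 := fun h => hj (by rw [G.gD, h, zero_mul])
    have hch : CharZero G.k0 := charZero_of_injective_algebraMap (algebraMap k G.k0).injective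
    refine chain_alg (k := G.k0) (liftDer G.D G.k0 fun x hx => hx)
      (X := fun i => ch G.D (G.gc j) (G.gx j) i) hc
      (fun i => D_ch G.D (fun h => absurd h hc) i) ?_ i
    have h1 : ch G.D (G.gc j) (G.gx j) 1 = G.gy j := by
      change ch G.D (G.gc j) (G.gx j) (0 + 1) = _
      rw [ch_succ, ch_zero, G.gD, ← mul_assoc, inv_mul_cancel₀ hc, one_mul]
    change ch G.D (G.gc j) (G.gx j) 1 ∈ clo G.k0 {ch G.D (G.gc j) (G.gx j) 0}
    rw [h1, ch_zero]
    exact G.mem_clo_gy j

/-- the derivation `E` kills the coefficients and moves the generators with constant speeds -/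
structure Dir (w : τ ⊕ σ → K) (E : Derivation k K K) : Prop where
  kill : ∀ x ∈ G.S, E x = 0
  const : ∀ s, w s ∈ G.S
  gx : ∀ s, E (G.gx s) = w s * G.gy s
  gy : ∀ j, 2 * E (G.y j) = w (Sum.inl j) * (3 * G.x j ^ 2 + G.a j)

variable {G}

theorem kill_y {E : Derivation k K K} (hE : ∀ x ∈ G.S, E x = 0) (j : τ) :
    2 * G.y j * E (G.y j) = (3 * G.x j ^ 2 + G.a j) * E (G.x j) := by
  have h1 := congrArg E (G.hxy j)
  have ha : E (G.a j) = 0 := hE _ (G.kerS _ (G.Da j))
  have hb : E (G.b j) = 0 := hE _ (G.kerS _ (G.Db j))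
  rw [map_add, map_add, Derivation.leibniz_pow, Derivation.leibniz_pow, Derivation.leibniz, ha,
    hb] at h1
  simp only [smul_eq_mul, nsmul_eq_mul, Nat.cast_ofNat] at h1
  linear_combination h1

theorem exists_dir [Fintype τ] [Fintype σ] [CharZero k] {z : K} (hz : z ∉ G.S)
    (hk : ∀ E : Derivation k K K, (∀ x ∈ G.S, E x = 0) → (∀ j, E (G.x j) = 0) →
      (∀ j, E (G.y j) = 0) → (∀ j, E (G.u j) = 0) → E z = 0) :
    ∃ (w : τ ⊕ σ → K) (E : Derivation k K K), G.Dir w E ∧ E z ≠ 0 ∧
      ∃ j, E (G.gx j) ≠ 0 ∧ ∀ l, ¬ AlgebraicIndependent (kerF E)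
        (fun o : Option Unit => o.elim (G.gx l) fun _ => G.gx j) := by
  have hch : CharZero G.k0 := charZero_of_injective_algebraMap (algebraMap k G.k0).injective
  have hch' : CharZero K := charZero_of_injective_algebraMap (algebraMap k K).injective
  obtain ⟨w, E, hw, hg, hEz⟩ := AB.exists_elem (A := G.ab) (u := z) hz (by
    intro E hE hX
    have h1 : ∀ x ∈ G.S, E.restrictScalars k x = 0 := hE
    have h2 : ∀ s, E.restrictScalars k (G.gx s) = 0 := fun s => hX (s, 0)
    have h3 : ∀ j, E.restrictScalars k (G.y j) = 0 := by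
      intro j
      have h4 := kill_y h1 j
      have h5 : E.restrictScalars k (G.x j) = 0 := h2 (Sum.inl j)
      rw [h5, mul_zero] at h4
      by_cases h6 : G.y j = 0
      · rw [h6, map_zero]
      · exact (mul_eq_zero.1 h4).resolve_left (mul_ne_zero two_ne_zero h6)
    exact hk (E.restrictScalars k) h1 (fun j => h2 (Sum.inl j)) h3 (fun j => h2 (Sum.inr j)))
  have hX0 : ∀ s, G.ab.X (s, 0) = G.gx s := fun s => rfl
  have hX1 : ∀ s, G.D (G.gx s) ≠ 0 → G.ab.X (s, 1) = G.gy s := by
    intro s hs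
    have hc : G.gc s ≠ 0 := fun h => hs (by rw [G.gD, h, zero_mul])
    change ch G.D (G.gc s) (G.gx s) (0 + 1) = _
    rw [ch_succ, ch_zero, G.gD, ← mul_assoc, inv_mul_cancel₀ hc, one_mul]
  have hw0 : ∀ s, G.D (G.gx s) = 0 → w s = 0 := fun s hs => hw.mem.1 s (not_not.2 hs)
  obtain ⟨E1, hE1⟩ : ∃ E1 : Derivation k K K, E1 = E.restrictScalars k := ⟨_, rfl⟩
  have hEE : ∀ v, E1 v = E v := fun v => by rw [hE1]; rfl
  have hkill : ∀ x ∈ G.S, E1 x = 0 := fun x hx => by rw [hEE]; exact hg.kill x hx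
  have hgx : ∀ s, E1 (G.gx s) = w s * G.gy s := by
    intro s
    by_cases hs : G.D (G.gx s) = 0
    · rw [hw0 s hs, zero_mul, hEE]
      have h1 := hg.gen s 0
      rw [hw0 s hs, zero_mul] at h1
      exact h1
    · rw [← hX1 s hs, hEE]
      exact hg.gen s 0
  have hdir : G.Dir w E1 := by
    refine ⟨hkill, fun s => G.kerS _ (hw.const s), hgx, fun j => ?_⟩
    have h1 := kill_y hkill j
    have h2 : E1 (G.x j) = w (Sum.inl j) * G.y j := hgx (Sum.inl j)
    by_cases hy : G.y j = 0
    · have h3 : G.D (G.gx (Sum.inl j)) = 0 := by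
        change G.D (G.x j) = 0
        rw [G.Dx, hy, mul_zero]
      rw [hy, map_zero, hw0 _ h3, mul_zero, zero_mul]
    · apply mul_left_cancel₀ hy
      rw [h2] at h1
      linear_combination h1
  obtain ⟨j, hj⟩ := Function.ne_iff.1 hw.ne
  have hj' : w j ≠ 0 := hj
  have hDj : G.D (G.gx j) ≠ 0 := fun h => hj' (hw0 j h)
  have hEj : E1 (G.gx j) ≠ 0 := by
    rw [hgx]
    refine mul_ne_zero hj' fun h => hDj ?_
    rw [G.gD, h, mul_zero]
  refine ⟨w, E1, hdir, by rw [hEE]; exact hEz, j, hEj, fun l hind => ?_⟩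
  have hrel := AB.rel (A := G.ab) hw (j := j) (l := l) hj'
  have hchF : CharZero (kerF E1) := charZero_of_injective_algebraMap (algebraMap k (kerF E1)).injective
  obtain ⟨d, hd⟩ := Pool.Agent.H135R2.VS.exists_der hind (fun o => o.elim 1 fun _ => 0)
  have hd1 : d (G.gx l) = 1 := hd none
  have hd0 : d (G.gx j) = 0 := hd (some ())
  have hdF : ∀ v, E1 v = 0 → d v = 0 := fun v hv => d.map_algebraMap (⟨v, hv⟩ : kerF E1)
  have hdk : ∀ v ∈ G.k0, d.restrictScalars k v = 0 := fun v hv => hdF v (hkill v (G.k0_le hv))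
  have h5 := ker_clo (liftDer (d.restrictScalars k) G.k0 hdk) (x := G.gx l) ?_ hrel
  · have h6 : d (G.gx l) = 0 := h5
    rw [hd1] at h6
    exact one_ne_zero h6
  · rintro v (hv | ⟨s, hs, rfl⟩)
    · exact hdF v (hkill v hv)
    · change d (G.gx s) = 0
      rcases hs with rfl | hs
      · exact hd0
      · exact hdF _ (by rw [hgx, hs, zero_mul])

end Dat

end Pool.Agent.E8helper90.AF
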