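import Pool.Agent.E8helper90.AF.Vo
import Pool.Agent.TH600.LC.Diff

/-!
Function fields generated by finitely many algebraic elements; restrictions of derivations.
-/

set_option autoImplicit false

namespace Pool.Agent.E8helper90.AF

open FF Pool.Agent.W603.LV Pool.Agent.W603.PV
open Pool.Agent.TH600.LC (clo mem_clo inv_mem_clo subset_clo clo_le clo_mono adjoin_le_clo)

variable {k L : Type} [Field k] [Field L] [Algebra k L]

theorem isFF_adjoin {G : Set L} (hG : G.Finite) {X : L} (hX : X ∈ IntermediateField.adjoin k G)
    (ht : Transcendental k X) (hG' : ∀ g ∈ G, g ∈ clo k {X}) :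
    IsFF k (IntermediateField.adjoin k G) := by
  obtain ⟨N, hN⟩ : ∃ N, N = IntermediateField.adjoin k G := ⟨_, rfl⟩
  rw [← hN] at hX ⊢
  have hle : ∀ g ∈ N, g ∈ clo k {X} := by
    let F : IntermediateField k L := (clo k {X}).toIntermediateField fun _ h => inv_mem_clo h
    have h1 : N ≤ F := by
      rw [hN]
      exact IntermediateField.adjoin_le_iff.2 hG'
    exact fun g hg => h1 hg
  have hi' : AlgebraicIndependent k (fun _ : Unit => X) :=
    algebraicIndependent_unique_type_iff.2 ht
  have hi : AlgebraicIndependent k (fun _ : Unit => (⟨X, hX⟩ : N)) :=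
    AlgebraicIndependent.of_comp N.val hi'
  have hr : Set.range (fun _ : Unit => X) = {X} := by simp
  constructor
  · rw [hN]
    exact IntermediateField.essFiniteType_iff.2 (IntermediateField.fg_adjoin_of_finite hG)
  · have h2 : IsTranscendenceBasis k (fun _ : Unit => (⟨X, hX⟩ : N)) := by
      rw [isTranscendenceBasis_iff_algebraicIndependent_isAlgebraic]
      refine ⟨hi, ⟨fun g => ?_⟩⟩
      by_contra hg
      have h3 := (hi.option_iff_transcendental g).2 hg
      have h4 := h3.map' (f := N.val) N.val.injective
      have h5 : (N.val ∘ fun o : Option Unit => o.elim g fun _ => (⟨X, hX⟩ : N)) =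
          fun o : Option Unit => o.elim (g : L) fun _ => X := by
        funext o
        cases o <;> rfl
      rw [h5, hi'.option_iff_transcendental, hr] at h4
      exact h4 (mem_clo.1 (hle g g.2))
    have := h2.lift_cardinalMk_eq_trdeg
    simpa using this.symm

/-- a relation between two elements -/
theorem mem_clo_of_rel {X g : L} (ht : Transcendental k X) {Q : MvPolynomial (Option Unit) k}
    (hQ : Q ≠ 0) (h : MvPolynomial.aeval (fun o : Option Unit => o.elim g fun _ => X) Q = 0) :
    g ∈ clo k {X} := by
  have hi' : AlgebraicIndependent k (fun _ : Unit => X) :=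
    algebraicIndependent_unique_type_iff.2 ht
  have hr : Set.range (fun _ : Unit => X) = {X} := by simp
  by_contra hcon
  rw [mem_clo] at hcon
  have h3 : Transcendental (Algebra.adjoin k (Set.range fun _ : Unit => X)) g := by
    rw [hr]
    exact hcon
  have h4 := (hi'.option_iff_transcendental g).2 h3
  exact hQ ((algebraicIndependent_iff.1 h4) Q h)

/-- restriction of a derivation to a subalgebra -/
def resDer (D : Derivation k L L) (R : Subalgebra k L) (h : ∀ g ∈ R, D g ∈ R) :
    Derivation k R R := Derivation.mk'
  { toFun := fun g => ⟨D g, h g g.2⟩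
    map_add' := fun a b => Subtype.ext (D.map_add a b)
    map_smul' := fun c a => Subtype.ext (D.map_smul c a) }
  (fun a b => Subtype.ext (D.leibniz a b))

theorem coe_resDer (D : Derivation k L L) (R : Subalgebra k L) (h : ∀ g ∈ R, D g ∈ R) (g : R) :
    (resDer D R h g : L) = D g := rfl

/-- restriction of a derivation to an intermediate field -/
def resDerF (D : Derivation k L L) (R : IntermediateField k L) (h : ∀ g ∈ R, D g ∈ R) :
    Derivation k R R := Derivation.mk'
  { toFun := fun g => ⟨D g, h g g.2⟩
    map_add' := fun a b => Subtype.ext (D.map_add a b)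
    map_smul' := fun c a => Subtype.ext (D.map_smul c a) }
  (fun a b => Subtype.ext (D.leibniz a b))

theorem coe_resDerF (D : Derivation k L L) (R : IntermediateField k L) (h : ∀ g ∈ R, D g ∈ R)
    (g : R) : (resDerF D R h g : L) = D g := rfl

theorem der_adjoinF (D : Derivation k L L) {G : Set L}
    (h : ∀ g ∈ G, D g ∈ IntermediateField.adjoin k G) {g : L}
    (hg : g ∈ IntermediateField.adjoin k G) : D g ∈ IntermediateField.adjoin k G := by
  induction hg using IntermediateField.adjoin_induction with
  | mem x hx => exact h x hx
  | algebraMap r => rw [D.map_algebraMap]; exact IntermediateField.zero_mem _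
  | add x y hx hy ihx ihy => rw [map_add]; exact IntermediateField.add_mem _ ihx ihy
  | inv x hx ihx =>
    rw [Derivation.leibniz_inv, smul_eq_mul]
    exact IntermediateField.mul_mem _ (IntermediateField.neg_mem _
      (pow_mem (IntermediateField.inv_mem _ hx) 2)) ihx
  | mul x y hx hy ihx ihy =>
    rw [D.leibniz, smul_eq_mul, smul_eq_mul]
    exact IntermediateField.add_mem _ (IntermediateField.mul_mem _ hx ihy)
      (IntermediateField.mul_mem _ hy ihx)

/-- the generators of an intermediate field, as its elements -/
theorem adjoin_top {ι : Type} (v : ι → L) (N : IntermediateField k L)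
    (hN : N = IntermediateField.adjoin k (Set.range v)) (v' : ι → N) (hv : ∀ i, (v' i : L) = v i) :
    IntermediateField.adjoin k (Set.range v') = ⊤ := by
  apply IntermediateField.map_injective N.val
  rw [IntermediateField.adjoin_map, ← Set.range_comp]
  have h1 : (N.val ∘ v') = v := funext hv
  rw [h1, ← hN]
  ext z
  rw [IntermediateField.mem_map]
  constructor
  · intro hz
    exact ⟨⟨z, hz⟩, IntermediateField.mem_top, rfl⟩
  · rintro ⟨w, -, rfl⟩
    exact w.2

end Pool.Agent.E8helper90.AF
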