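import Pool.Agent.E8helper90.AF.Tay
import Pool.Agent.E8helper90.AF.Fie
import Pool.Agent.E8helper90.AF.Dat

/-!
The directions of the flows produce curves of genus at most one.
-/

set_option autoImplicit false

namespace Pool.Agent.E8helper90.AF

attribute [-instance] HahnSeries.powerSeriesAlgebra

open FF MvPolynomial Pool.Agent.W603.LV Pool.Agent.W603.PV
open Pool.Agent.E8helper90.GL (kerF mem_kerF)
open Pool.Agent.TH600.LC (clo mem_clo inv_mem_clo subset_clo clo_le clo_mono adjoin_le_clo)

/-- `F` and `J` are polynomials in the homogeneous coordinates of projective space and in the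
parameters `t`. For all `t`, every nonconstant map from a curve of genus at most one to the projective
variety with the equations `F (·, t)` has its image in the closed subset with the equations
`J (·, t)`. -/
def LowGenusIn {k : Type} [Field k] {N r : ℕ} {ι κ : Type}
    (F : ι → MvPolynomial (Fin (N + 1) ⊕ Fin r) k) (J : κ → MvPolynomial (Fin (N + 1) ⊕ Fin r) k) :
    Prop :=
  ∀ (t : Fin r → k) (L : Type) [Field L] [Algebra k L] [IsFF k L], canDeg k L ≤ 0 →
    ∀ g : Fin (N + 1) → L, (∃ j, g j ≠ 0) →
      (∀ i, aeval (Sum.elim g fun l => algebraMap k L (t l)) (F i) = 0) → 0 < pht k g →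
      ∀ i, aeval (Sum.elim g fun l => algebraMap k L (t l)) (J i) = 0

variable {k K : Type} [Field k] [Field K] [Algebra k K]

/-- transfer of a relation to the Taylor series -/
theorem transfer [CharZero k] {R : Subalgebra k K} (M : IntermediateField k K)
    (E : Derivation k R R) (π : R →ₐ[k] k) {ρ : Type} (v : ρ → R) (Q : MvPolynomial ρ M)
    (q : (ρ →₀ ℕ) → R) (hq : ∀ α, (q α : K) = algebraMap M K (Q.coeff α))
    (hE : ∀ α, E (q α) = 0) (h0 : aeval (fun i => (v i : K)) Q = 0) {α0 : ρ →₀ ℕ}
    (hα0 : π (q α0) ≠ 0) :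
    ∃ Q' : MvPolynomial ρ k, Q' ≠ 0 ∧ aeval (fun i => tl E π (v i)) Q' = 0 := by
  classical
  refine ⟨∑ α ∈ Q.support, monomial α (π (q α)), fun h => ?_, ?_⟩
  · have h1 := congrArg (coeff α0) h
    rw [coeff_sum, coeff_zero] at h1
    simp only [coeff_monomial] at h1
    rw [Finset.sum_ite_eq'] at h1
    have h2 : α0 ∈ Q.support := by
      rw [mem_support_iff]
      intro h3
      apply hα0
      have h4 : q α0 = 0 := Subtype.ext (by
        rw [hq, h3, map_zero]
        rfl)
      rw [h4, map_zero]
    rw [if_pos h2] at h1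
    exact hα0 h1
  · have h1 : (∑ α ∈ Q.support, q α * ∏ i ∈ α.support, v i ^ α i) = 0 := by
      apply Subtype.ext
      push_cast
      rw [aeval_def, eval₂_eq] at h0
      simp only [hq]
      exact h0
    have h2 := congrArg (tl E π) h1
    rw [map_sum, map_zero] at h2
    rw [map_sum, ← h2]
    refine Finset.sum_congr rfl fun α _ => ?_
    rw [aeval_monomial, map_mul, map_prod, tl_const E π (hE α)]
    congr 1
    refine Finset.prod_congr rfl fun i _ => ?_
    rw [map_pow]

/-- derivations that kill the coefficients and the variables -/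
theorem kill_aeval {M : IntermediateField k K} (E : Derivation k K K) (hM : ∀ x ∈ M, E x = 0)
    {ρ : Type} {v : ρ → K} (hv : ∀ i, E (v i) = 0) (P : MvPolynomial ρ M) :
    E (aeval v P) = 0 := by
  induction P using MvPolynomial.induction_on with
  | C a => rw [aeval_C]; exact hM _ a.2
  | add p q hp hq => rw [map_add, map_add, hp, hq, add_zero]
  | mul_X p i hp => rw [map_mul, aeval_X, E.leibniz, hp, hv, smul_zero, smul_zero, add_zero]

theorem aeval_mem {M : IntermediateField k K} {R : Subalgebra k K} {ρ : Type} {v : ρ → K}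
    (hv : ∀ i, v i ∈ R) (P : MvPolynomial ρ M) (hP : ∀ α ∈ P.support, algebraMap M K (P.coeff α) ∈ R) :
    aeval v P ∈ R := by
  rw [aeval_def, eval₂_eq]
  refine Subalgebra.sum_mem _ fun α hα => Subalgebra.mul_mem _ (hP α hα)
    (Subalgebra.prod_mem _ fun i _ => Subalgebra.pow_mem _ (hv i) _)

theorem const_of_alg [IsAlgClosed k] {X : K} (hX : IsAlgebraic k X) :
    ∃ c : k, algebraMap k K c = X := by
  have h2 := IsAlgClosed.degree_eq_one_of_irreducible k (minpoly.irreducible hX.isIntegral)
  exact minpoly.mem_range_of_degree_eq_one k X h2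

end Pool.Agent.E8helper90.AF
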