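import Pool.Agent.E8helper90.AF.Core

/-!
The directions of the flows produce curves of genus at most one: the main step.
-/

set_option autoImplicit false

namespace Pool.Agent.E8helper90.AF

attribute [-instance] HahnSeries.powerSeriesAlgebra

open FF MvPolynomial Pool.Agent.W603.LV Pool.Agent.W603.PV
open Pool.Agent.E8helper90.GL (kerF mem_kerF)
open Pool.Agent.TH600.LC (clo mem_clo inv_mem_clo subset_clo clo_le clo_mono adjoin_le_clo)

variable {k K : Type} [Field k] [Field K] [Algebra k K]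

theorem core [IsAlgClosed k] [CharZero k] {τ σ : Type} [Fintype τ] [Fintype σ]
    (G : Dat k K τ σ) {N r : ℕ} {ι κ : Type} {F : ι → MvPolynomial (Fin (N + 1) ⊕ Fin r) k}
    {J : κ → MvPolynomial (Fin (N + 1) ⊕ Fin r) k} (hFJ : LowGenusIn F J) {f : Fin (N + 1) → K}
    {t : Fin r → K} (ht : ∀ l, t l ∈ G.S)
    (P : Fin (N + 1) → MvPolynomial (τ ⊕ τ ⊕ σ) G.S)
    (hP : ∀ j, f j = aeval (Sum.elim G.x (Sum.elim G.y G.u)) (P j))
    (hF : ∀ i, aeval (Sum.elim f t) (F i) = 0) {i1 : κ}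
    (hJ : aeval (Sum.elim f t) (J i1) ≠ 0) {i0 j0 : Fin (N + 1)}
    (hj0 : f j0 ≠ 0) : f i0 / f j0 ∈ G.S := by
  classical
  have hchK : CharZero K := charZero_of_injective_algebraMap (algebraMap k K).injective
  by_contra hz
  obtain ⟨w, E, hd, hEz, j, hEj, hrel⟩ := Dat.exists_dir hz (by
    intro E hE hx hy hu
    have h1 : ∀ i, E (f i) = 0 := by
      intro i
      rw [hP]
      refine kill_aeval E hE ?_ (P i)
      rintro (l | l | l)
      · exact hx l
      · exact hy l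
      · exact hu l
    rw [div_eq_mul_inv, E.leibniz, Derivation.leibniz_inv, h1, h1, smul_zero, smul_zero,
      smul_zero, add_zero])
  -- the relations
  have hQ' : ∀ l, ∃ Q : MvPolynomial (Option Unit) (kerF E), Q ≠ 0 ∧
      aeval (fun o : Option Unit => o.elim (G.gx l) fun _ => G.gx j) Q = 0 := by
    intro l
    have h := hrel l
    rw [algebraicIndependent_iff] at h
    push Not at h
    obtain ⟨Q, h1, h2⟩ := h
    exact ⟨Q, h2, h1⟩
  choose Q hQ0 hQ using hQ'
  have hα' : ∀ l, ∃ α, (Q l).coeff α ≠ 0 := fun l => MvPolynomial.ne_zero_iff.1 (hQ0 l)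
  choose α hα using hα'
  -- the ring
  obtain ⟨Z, hZ⟩ : ∃ Z : Set K, Z = (Set.range G.gx ∪ Set.range G.y) ∪ (Set.range G.a ∪
    Set.range G.b ∪ (Set.range w ∪ Set.range t) ∪
    (⋃ i, (fun β => algebraMap G.S K ((P i).coeff β)) '' (P i).support) ∪
    ⋃ l, (fun β => algebraMap (kerF E) K ((Q l).coeff β)) '' (Q l).support) := ⟨_, rfl⟩
  have hZf : Z.Finite := by
    rw [hZ]
    refine ((Set.finite_range _).union (Set.finite_range _)).union
      (((((Set.finite_range _).union (Set.finite_range _)).union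
      ((Set.finite_range _).union (Set.finite_range _))).union
      (Set.finite_iUnion fun i => (Finset.finite_toSet _).image _)).union
      (Set.finite_iUnion fun i => (Finset.finite_toSet _).image _))
  obtain ⟨R, hR⟩ : ∃ R : Subalgebra k K, R = Algebra.adjoin k Z := ⟨_, rfl⟩
  have hZR : ∀ z ∈ Z, z ∈ R := fun z hz => by
    rw [hR]
    exact Algebra.subset_adjoin hz
  have mgx : ∀ s, G.gx s ∈ R := fun s => hZR _ (by rw [hZ]; exact Or.inl (Or.inl ⟨s, rfl⟩))
  have my : ∀ s, G.y s ∈ R := fun s => hZR _ (by rw [hZ]; exact Or.inl (Or.inr ⟨s, rfl⟩))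
  have ma : ∀ s, G.a s ∈ R := fun s => hZR _ (by
    rw [hZ]; exact Or.inr (Or.inl (Or.inl (Or.inl (Or.inl ⟨s, rfl⟩)))))
  have mb : ∀ s, G.b s ∈ R := fun s => hZR _ (by
    rw [hZ]; exact Or.inr (Or.inl (Or.inl (Or.inl (Or.inr ⟨s, rfl⟩)))))
  have mw : ∀ s, w s ∈ R := fun s => hZR _ (by
    rw [hZ]; exact Or.inr (Or.inl (Or.inl (Or.inr (Or.inl ⟨s, rfl⟩)))))
  have mt : ∀ s, t s ∈ R := fun s => hZR _ (by
    rw [hZ]; exact Or.inr (Or.inl (Or.inl (Or.inr (Or.inr ⟨s, rfl⟩)))))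
  have mP : ∀ i, ∀ β ∈ (P i).support, algebraMap G.S K ((P i).coeff β) ∈ R := fun i β hβ =>
    hZR _ (by
      rw [hZ]
      exact Or.inr (Or.inl (Or.inr (Set.mem_iUnion.2 ⟨i, ⟨β, hβ, rfl⟩⟩))))
  have mQ : ∀ l, ∀ β, algebraMap (kerF E) K ((Q l).coeff β) ∈ R := by
    intro l β
    by_cases hβ : β ∈ (Q l).support
    · exact hZR _ (by
        rw [hZ]
        exact Or.inr (Or.inr (Set.mem_iUnion.2 ⟨l, ⟨β, hβ, rfl⟩⟩)))
    · rw [notMem_support_iff.1 hβ, map_zero]
      exact R.zero_mem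
  have mgy : ∀ s, G.gy s ∈ R := by
    rintro (s | s)
    · exact my s
    · exact mgx (Sum.inr s)
  have hyE : ∀ s, E (G.y s) =
      algebraMap k K (1 / 2) * (w (Sum.inl s) * (3 * G.x s ^ 2 + G.a s)) := by
    intro s
    have h1 := hd.gy s
    have h2 : algebraMap k K (1 / 2) * 2 = 1 := by
      rw [map_div₀, map_one, map_ofNat, div_mul_cancel₀ _ two_ne_zero]
    linear_combination (algebraMap k K (1 / 2)) * h1 - E (G.y s) * h2
  have hER : ∀ g ∈ R, E g ∈ R := by
    intro g hg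
    rw [hR] at hg ⊢
    refine der_adjoin E ?_ hg
    rw [← hR]
    intro z hz
    rw [hZ] at hz
    rcases hz with (⟨s, rfl⟩ | ⟨s, rfl⟩) |
      ((((⟨s, rfl⟩ | ⟨s, rfl⟩) | (⟨s, rfl⟩ | ⟨s, rfl⟩)) | hz) | hz)
    · rw [hd.gx]
      exact R.mul_mem (mw s) (mgy s)
    · rw [hyE]
      refine R.mul_mem (R.algebraMap_mem _) (R.mul_mem (mw _) (R.add_mem (R.mul_mem ?_
        (R.pow_mem (mgx (Sum.inl s)) 2)) (ma s)))
      have h3 : (3 : K) = algebraMap k K 3 := by rw [map_ofNat]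
      rw [h3]
      exact R.algebraMap_mem _
    · rw [hd.kill _ (G.kerS _ (G.Da s))]
      exact R.zero_mem
    · rw [hd.kill _ (G.kerS _ (G.Db s))]
      exact R.zero_mem
    · rw [hd.kill _ (hd.const s)]
      exact R.zero_mem
    · rw [hd.kill _ (ht s)]
      exact R.zero_mem
    · obtain ⟨i, hi⟩ := Set.mem_iUnion.1 hz
      obtain ⟨β, -, rfl⟩ := hi
      change E (algebraMap G.S K ((P i).coeff β)) ∈ R
      have h3 : E (algebraMap G.S K ((P i).coeff β)) = 0 := hd.kill _ ((P i).coeff β).2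
      rw [h3]
      exact R.zero_mem
    · obtain ⟨i, hi⟩ := Set.mem_iUnion.1 hz
      obtain ⟨β, -, rfl⟩ := hi
      change E (algebraMap (kerF E) K ((Q i).coeff β)) ∈ R
      have h3 : E (algebraMap (kerF E) K ((Q i).coeff β)) = 0 := ((Q i).coeff β).2
      rw [h3]
      exact R.zero_mem
  have mf : ∀ i, f i ∈ R := by
    intro i
    rw [hP]
    refine aeval_mem ?_ (P i) (mP i)
    rintro (s | s | s)
    · exact mgx (Sum.inl s)
    · exact my s
    · exact mgx (Sum.inr s)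
  have hft : Algebra.FiniteType k R := by
    rw [hR]
    obtain ⟨Z', hZ'⟩ := hZf.exists_finset_coe
    rw [← hZ', ← Subalgebra.fg_iff_finiteType]
    exact Subalgebra.fg_adjoin_finset Z'
  -- the elements of the ring
  obtain ⟨ER, hER'⟩ : ∃ ER : Derivation k R R, ER = resDer E R hER := ⟨_, rfl⟩
  have eER : ∀ g : R, (ER g : K) = E g := fun g => by rw [hER', coe_resDer]
  obtain ⟨X, hX⟩ : ∃ X : τ ⊕ σ → R, ∀ s, (X s : K) = G.gx s := ⟨fun s => ⟨_, mgx s⟩, fun _ => rfl⟩
  obtain ⟨Y, hY⟩ : ∃ Y : τ → R, ∀ s, (Y s : K) = G.y s := ⟨fun s => ⟨_, my s⟩, fun _ => rfl⟩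
  obtain ⟨YY, hYY⟩ : ∃ YY : τ ⊕ σ → R, ∀ s, (YY s : K) = G.gy s :=
    ⟨fun s => ⟨_, mgy s⟩, fun _ => rfl⟩
  obtain ⟨A, hA⟩ : ∃ A : τ → R, ∀ s, (A s : K) = G.a s := ⟨fun s => ⟨_, ma s⟩, fun _ => rfl⟩
  obtain ⟨B, hB⟩ : ∃ B : τ → R, ∀ s, (B s : K) = G.b s := ⟨fun s => ⟨_, mb s⟩, fun _ => rfl⟩
  obtain ⟨W, hW⟩ : ∃ W : τ ⊕ σ → R, ∀ s, (W s : K) = w s := ⟨fun s => ⟨_, mw s⟩, fun _ => rfl⟩
  obtain ⟨fR, hfR⟩ : ∃ fR : Fin (N + 1) → R, ∀ s, (fR s : K) = f s :=
    ⟨fun s => ⟨_, mf s⟩, fun _ => rfl⟩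
  obtain ⟨tR, htR⟩ : ∃ tR : Fin r → R, ∀ s, (tR s : K) = t s :=
    ⟨fun s => ⟨_, mt s⟩, fun _ => rfl⟩
  obtain ⟨q, hq⟩ : ∃ q : τ ⊕ σ → (Option Unit →₀ ℕ) → R, ∀ l β,
      (q l β : K) = algebraMap (kerF E) K ((Q l).coeff β) := ⟨fun l β => ⟨_, mQ l β⟩, fun _ _ => rfl⟩
  obtain ⟨jR, hjR⟩ : ∃ jR : R, jR = aeval (Sum.elim fR tR) (J i1) := ⟨_, rfl⟩
  have cev : ∀ H : MvPolynomial (Fin (N + 1) ⊕ Fin r) k,
      ((aeval (Sum.elim fR tR) H : R) : K) = aeval (Sum.elim f t) H := by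
    intro H
    have h2 := MvPolynomial.comp_aeval_apply (f := Sum.elim fR tR) R.val H
    have h3 : (fun i => R.val (Sum.elim fR tR i)) = Sum.elim f t := by
      funext i
      rcases i with i | i
      · exact hfR i
      · exact htR i
    rw [h3] at h2
    exact h2
  have eW : ∀ s, ER (W s) = 0 := fun s => Subtype.ext (by
    rw [eER, hW]; exact hd.kill _ (hd.const s))
  have eA : ∀ s, ER (A s) = 0 := fun s => Subtype.ext (by
    rw [eER, hA]; exact hd.kill _ (G.kerS _ (G.Da s)))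
  have eB : ∀ s, ER (B s) = 0 := fun s => Subtype.ext (by
    rw [eER, hB]; exact hd.kill _ (G.kerS _ (G.Db s)))
  have et : ∀ s, ER (tR s) = 0 := fun s => Subtype.ext (by
    rw [eER, htR]; exact hd.kill _ (ht s))
  have eq' : ∀ l β, ER (q l β) = 0 := fun l β => Subtype.ext (by
    rw [eER, hq]; exact ((Q l).coeff β).2)
  have eX : ∀ s, ER (X s) = W s * YY s := fun s => Subtype.ext (by
    rw [eER, hX, hd.gx, ← hW, ← hYY]; rfl)
  have YYl : ∀ s, YY (Sum.inl s) = Y s := fun s => Subtype.ext (by rw [hYY, hY]; rfl)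
  have YYr : ∀ s, YY (Sum.inr s) = X (Sum.inr s) := fun s => Subtype.ext (by rw [hYY, hX]; rfl)
  have eY : ∀ s, 2 * ER (Y s) = W (Sum.inl s) * (3 * X (Sum.inl s) ^ 2 + A s) := fun s =>
    Subtype.ext (by
      push_cast
      rw [eER, hY, hW, hX, hA]
      exact hd.gy s)
  have eXY : ∀ s, Y s ^ 2 = X (Sum.inl s) ^ 3 + A s * X (Sum.inl s) + B s := fun s =>
    Subtype.ext (by
      push_cast
      rw [hY, hX, hA, hB]
      exact G.hxy s)
  obtain ⟨Wr, hWr⟩ : ∃ Wr : R, Wr = ER (fR i0) * fR j0 - fR i0 * ER (fR j0) := ⟨_, rfl⟩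
  have hWr0 : Wr ≠ 0 := by
    intro h0
    have h1 : E (f i0) * f j0 - f i0 * E (f j0) = 0 := by
      have h2 := congrArg (fun r : R => (r : K)) h0
      simp only [hWr] at h2
      push_cast at h2
      rw [eER, eER, hfR, hfR] at h2
      exact h2
    apply hEz
    have h3 : f i0 = f i0 / f j0 * f j0 := (div_mul_cancel₀ _ hj0).symm
    have h4 : E (f i0) = f i0 / f j0 * E (f j0) + f j0 * E (f i0 / f j0) := by
      conv_lhs => rw [h3]
      rw [E.leibniz, smul_eq_mul, smul_eq_mul]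
    have h5 : f j0 ^ 2 * E (f i0 / f j0) = 0 := by
      rw [h4] at h1
      linear_combination h1 + E (f j0) * h3
    exact (mul_eq_zero.1 h5).resolve_left (pow_ne_zero _ hj0)
  have hXu : ∀ s, X (Sum.inr s) ≠ 0 := fun s h => G.u0 s (by
    have h1 := hX (Sum.inr s)
    rw [h] at h1
    exact h1.symm)
  have hXj : ER (X j) ≠ 0 := fun h => hEj (by
    have h1 := eER (X j)
    rw [h, hX] at h1
    exact h1.symm)
  have hqα : ∀ l, q l (α l) ≠ 0 := fun l h => hα l (by
    have h1 := hq l (α l)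
    rw [h] at h1
    exact Subtype.ext h1.symm)
  have hjR0 : jR ≠ 0 := fun h => hJ (by
    rw [← cev, ← hjR, h]
    rfl)
  obtain ⟨π, hπ⟩ := exists_point (k := k) (A := R)
    (r := Wr * ER (X j) * (∏ s, X (Sum.inr s)) * (∏ l, q l (α l)) * jR)
    (mul_ne_zero (mul_ne_zero (mul_ne_zero (mul_ne_zero hWr0 hXj)
      (Finset.prod_ne_zero_iff.2 fun s _ => hXu s)) (Finset.prod_ne_zero_iff.2 fun l _ => hqα l))
      hjR0)
  rw [map_mul, map_mul, map_mul, map_mul, map_prod, map_prod] at hπ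
  have p5 := right_ne_zero_of_mul hπ
  have p4 := Finset.prod_ne_zero_iff.1 (right_ne_zero_of_mul (left_ne_zero_of_mul hπ))
  have p3 := Finset.prod_ne_zero_iff.1
    (right_ne_zero_of_mul (left_ne_zero_of_mul (left_ne_zero_of_mul hπ)))
  have p2 := right_ne_zero_of_mul (left_ne_zero_of_mul (left_ne_zero_of_mul
    (left_ne_zero_of_mul hπ)))
  have p1 := left_ne_zero_of_mul (left_ne_zero_of_mul (left_ne_zero_of_mul
    (left_ne_zero_of_mul hπ)))
  -- the Taylor series
  obtain ⟨T, hT⟩ : ∃ T : R →ₐ[k] LaurentSeries k, T = tl ER π := ⟨_, rfl⟩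
  have Tne : ∀ {g : R}, π g ≠ 0 → T g ≠ 0 := fun hg => by rw [hT]; exact tl_ne ER π hg
  have Tc : ∀ {g : R}, ER g = 0 → T g = algebraMap k _ (π g) := fun hg => by
    rw [hT]; exact tl_const ER π hg
  have TD : ∀ g : R, D0 k (T g) = T (ER g) := fun g => by rw [hT]; exact D0_tl ER π g
  obtain ⟨v, hv⟩ : ∃ v : (τ ⊕ τ) ⊕ σ → LaurentSeries k, v =
    Sum.elim (Sum.elim (fun s => T (X (Sum.inl s))) (fun s => T (Y s)))
      (fun s => T (X (Sum.inr s))) := ⟨_, rfl⟩
  obtain ⟨M, hM⟩ : ∃ M : IntermediateField k (LaurentSeries k),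
    M = IntermediateField.adjoin k (Set.range v) := ⟨_, rfl⟩
  have hvM : ∀ s, v s ∈ M := fun s => by
    rw [hM]
    exact IntermediateField.subset_adjoin _ _ ⟨s, rfl⟩
  have nX : ∀ s, T (X s) ∈ M := by
    rintro (s | s)
    · have := hvM (Sum.inl (Sum.inl s))
      rwa [hv] at this
    · have := hvM (Sum.inr s)
      rwa [hv] at this
  have nY : ∀ s, T (Y s) ∈ M := fun s => by
    have := hvM (Sum.inl (Sum.inr s))
    rwa [hv] at this
  have nR : ∀ g : R, T g ∈ M := by
    have h1 : R ≤ (M.toSubalgebra.comap T).map R.val := by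
      refine hR.le.trans (Algebra.adjoin_le fun z hz => ?_)
      have hcst : ∀ z' : R, ER z' = 0 → (z' : K) ∈ (M.toSubalgebra.comap T).map R.val := by
        intro z' hz'
        refine ⟨z', ?_, rfl⟩
        change T z' ∈ M
        rw [Tc hz']
        exact M.algebraMap_mem _
      rw [hZ] at hz
      rcases hz with (⟨s, rfl⟩ | ⟨s, rfl⟩) |
        ((((⟨s, rfl⟩ | ⟨s, rfl⟩) | (⟨s, rfl⟩ | ⟨s, rfl⟩)) | hz) | hz)
      · exact ⟨X s, nX s, hX s⟩
      · exact ⟨Y s, nY s, hY s⟩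
      · rw [← hA]
        exact hcst _ (eA s)
      · rw [← hB]
        exact hcst _ (eB s)
      · rw [← hW]
        exact hcst _ (eW s)
      · rw [← htR]
        exact hcst _ (et s)
      · obtain ⟨i, hi⟩ := Set.mem_iUnion.1 hz
        obtain ⟨β, hβ, rfl⟩ := hi
        exact hcst ⟨_, mP i β hβ⟩ (Subtype.ext (by
          rw [eER]
          exact hd.kill _ ((P i).coeff β).2))
      · obtain ⟨i, hi⟩ := Set.mem_iUnion.1 hz
        obtain ⟨β, hβ, rfl⟩ := hi
        change algebraMap (kerF E) K ((Q i).coeff β) ∈ _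
        rw [← hq]
        exact hcst _ (eq' i β)
    intro g
    obtain ⟨g', hg', he⟩ := h1 g.2
    have h2 : g' = g := Subtype.ext he
    rw [← h2]
    exact hg'
  have hTX : D0 k (T (X j)) ≠ 0 := by
    rw [TD]
    exact Tne p2
  have htr : Transcendental k (T (X j)) := by
    intro h
    obtain ⟨c, hc⟩ := const_of_alg h
    rw [← hc, Derivation.map_algebraMap] at hTX
    exact hTX rfl
  have hcl : ∀ s, T (X s) ∈ clo k {T (X j)} := by
    intro s
    obtain ⟨Q', h1, h2⟩ := transfer (kerF E) ER π (fun o : Option Unit => o.elim (X s) fun _ => X j)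
      (Q s) (q s) (hq s) (eq' s) (by
        have h3 : (fun o : Option Unit => ((o.elim (X s) fun _ => X j : R) : K)) =
            fun o : Option Unit => o.elim (G.gx s) fun _ => G.gx j := by
          funext o
          cases o with
          | none => exact hX s
          | some _ => exact hX j
        rw [h3]
        exact hQ s) (p4 s (Finset.mem_univ s))
    refine mem_clo_of_rel htr h1 ?_
    have h3 : (fun o : Option Unit => tl ER π (o.elim (X s) fun _ => X j)) =
        fun o : Option Unit => o.elim (T (X s)) fun _ => T (X j) := by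
      funext o
      rw [hT]
      cases o <;> rfl
    rw [h3] at h2
    exact h2
  have hclY : ∀ s, T (Y s) ∈ clo k {T (X j)} := by
    intro s
    have h1 : T (Y s) ^ 2 ∈ clo k {T (X j)} := by
      rw [← map_pow, eXY, map_add, map_add, map_mul, map_pow, Tc (eA s), Tc (eB s)]
      exact Subalgebra.add_mem _ (Subalgebra.add_mem _ (Subalgebra.pow_mem _ (hcl _) 3)
        (Subalgebra.mul_mem _ (Subalgebra.algebraMap_mem _ _) (hcl _)))
        (Subalgebra.algebraMap_mem _ _)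
    exact mem_clo.2 ((mem_clo.1 h1).of_pow (by norm_num))
  have hFF : IsFF k M := by
    rw [hM]
    refine isFF_adjoin (Set.finite_range v) (X := T (X j)) ?_ htr ?_
    · rw [← hM]
      exact nX j
    · rintro g ⟨s, rfl⟩
      rw [hv]
      rcases s with (s | s) | s
      · exact hcl _
      · exact hclY _
      · exact hcl _
  have hD0 : ∀ g ∈ M, D0 k g ∈ M := by
    intro g hg
    rw [hM] at hg ⊢
    refine der_adjoinF (D0 k) ?_ hg
    rw [← hM]
    rintro g ⟨s, rfl⟩
    rw [hv]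
    rcases s with (s | s) | s
    · change D0 k (T (X (Sum.inl s))) ∈ M
      rw [TD]
      exact nR _
    · change D0 k (T (Y s)) ∈ M
      rw [TD]
      exact nR _
    · change D0 k (T (X (Sum.inr s))) ∈ M
      rw [TD]
      exact nR _
  let T' : R →ₐ[k] M :=
    { toFun := fun g => ⟨T g, nR g⟩
      map_one' := Subtype.ext (map_one T)
      map_mul' := fun a b => Subtype.ext (map_mul T a b)
      map_zero' := Subtype.ext (map_zero T)
      map_add' := fun a b => Subtype.ext (map_add T a b)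
      commutes' := fun c => Subtype.ext (T.commutes c) }
  have cT' : ∀ g : R, (T' g : LaurentSeries k) = T g := fun g => rfl
  have Tne' : ∀ {g : R}, π g ≠ 0 → T' g ≠ 0 := fun {g} hg h => Tne hg (by
    rw [← cT', h]
    rfl)
  have Tc' : ∀ {g : R}, ER g = 0 → T' g = algebraMap k M (π g) := fun {g} hg =>
    Subtype.ext (Tc hg)
  obtain ⟨δ, hδ⟩ : ∃ δ : Derivation k M M, δ = resDerF (D0 k) M hD0 := ⟨_, rfl⟩
  have Tδ : ∀ g : R, δ (T' g) = T' (ER g) := fun g => Subtype.ext (by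
    rw [hδ, coe_resDerF, cT', TD]
    rfl)
  have hδ0 : δ ≠ 0 := by
    intro h
    have h1 := Tδ (X j)
    rw [h] at h1
    exact Tne' p2 h1.symm
  have hcan : canDeg k M ≤ 0 := by
    refine canDeg_nonpos hδ0 (fun s => T' (X (Sum.inl s))) (fun s => T' (Y s))
      (fun s => π (A s)) (fun s => π (B s)) (fun s => π (W (Sum.inl s))) ?_ ?_ ?_
      (fun s => T' (X (Sum.inr s))) (fun s => π (W (Sum.inr s))) ?_ ?_ ?_
    · intro s
      rw [← Tc' (eA s), ← Tc' (eB s), ← map_pow, eXY, map_add, map_add, map_mul, map_pow]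
    · intro s
      rw [Tδ, eX, map_mul, Tc' (eW _), YYl]
    · intro s
      have h1 := congrArg T' (eY s)
      simp only [map_mul, map_add, map_pow, map_ofNat] at h1
      rw [Tδ, ← Tc' (eW _), ← Tc' (eA s)]
      exact h1
    · intro s
      exact Tne' (p3 s (Finset.mem_univ s))
    · intro s
      rw [Tδ, eX, map_mul, Tc' (eW _), YYr]
    · have h1 := adjoin_top v M hM (Sum.elim (Sum.elim (fun s => T' (X (Sum.inl s)))
        (fun s => T' (Y s))) (fun s => T' (X (Sum.inr s)))) (by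
          rintro ((s | s) | s)
          · rw [hv]
            rfl
          · rw [hv]
            rfl
          · rw [hv]
            rfl)
      rw [Set.Sum.elim_range, Set.Sum.elim_range] at h1
      exact h1
  have hWT : δ (T' (fR i0)) * T' (fR j0) - T' (fR i0) * δ (T' (fR j0)) ≠ 0 := by
    rw [Tδ, Tδ, ← map_mul, ← map_mul, ← map_sub, ← hWr]
    exact Tne' p1
  have hgj : T' (fR j0) ≠ 0 ∧ T' (fR i0) ≠ 0 := by
    constructor
    · intro h
      rw [h, map_zero, mul_zero, mul_zero, sub_self] at hWT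
      exact hWT rfl
    · intro h
      rw [h, map_zero, zero_mul, zero_mul, sub_self] at hWT
      exact hWT rfl
  have hev : ∀ H : MvPolynomial (Fin (N + 1) ⊕ Fin r) k,
      aeval (Sum.elim (fun i => T' (fR i)) fun l => algebraMap k M (π (tR l))) H =
      T' (aeval (Sum.elim fR tR) H) := by
    intro H
    rw [MvPolynomial.comp_aeval_apply (f := Sum.elim fR tR) T' H]
    congr 2
    funext i
    rcases i with i | i
    · rfl
    · exact (Tc' (et i)).symm
  have hpos : 0 < pht k fun i => T' (fR i) := by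
    by_contra hcon
    push Not at hcon
    have h1 := Pool.Agent.W603.CX.hgt_le_pht (k := k) (fun i => T' (fR i)) (j := i0) (l := j0)
      hgj.2 hgj.1
    obtain ⟨c, hc⟩ := const_of_hgt (h1.trans hcon)
    rw [div_eq_iff hgj.1] at hc
    apply hWT
    rw [hc, δ.leibniz, δ.map_algebraMap, smul_eq_mul, smul_eq_mul]
    ring
  have hfin := hFJ (fun l => π (tR l)) M hcan (fun i => T' (fR i)) ⟨j0, hgj.1⟩ (fun i => by
    rw [hev]
    have h1 : (aeval (Sum.elim fR tR) (F i) : R) = 0 := Subtype.ext (by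
      rw [cev, hF]
      rfl)
    rw [h1, map_zero]) hpos i1
  rw [hev, ← hjR] at hfin
  exact Tne' p5 hfin

end Pool.Agent.E8helper90.AF
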