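import Pool.Agent.E8helper90.AF.Ult
import Pool.Agent.E8helper90.AF.Curve

/-!
Maps with coordinates that are polynomials in points of elliptic curves and units: the
ultraproduct of counterexamples.
-/

set_option autoImplicit false

namespace Pool.Agent.E8helper90.AF

open FF Filter MvPolynomial Pool.Agent.W603.LV Pool.Agent.W603.PV
open Pool.Agent.W603.CY (hgt_add_le hgt_mul_le ui mem_ui UL um um_surj um_eq um_zero_iff um_ne_iff
  um_add um_mul um_neg um_pow um_sum um_inv um_div um_alg um_aeval small mem_small)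

/-- a choice of an index that works almost everywhere -/
theorem exists_index {κ : Type} [Finite κ] {p : κ → ℕ → Prop} (h : ∀ i, ∃ t, p t i) :
    ∃ t, ∀ᶠ i in (hyperfilter ℕ : Filter ℕ), p t i := by
  by_contra hcon
  have h1 : ∀ t, ∀ᶠ i in (hyperfilter ℕ : Filter ℕ), ¬ p t i := fun t =>
    Ultrafilter.eventually_not.2 fun h => hcon ⟨t, h⟩
  obtain ⟨i, hi⟩ := (eventually_all.2 h1).exists
  obtain ⟨t, ht⟩ := h i
  exact hi t ht

section one

variable {k K : Type} [Field k] [Field K] [Algebra k K] [CharZero k] [IsFF k K] [IsAlgClosed k]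

/-- a derivation with few poles -/
theorem exists_der_pol {n m : ℕ} (S : Finset (Place k K)) (x y : Fin n → K) (a b : Fin n → k)
    (u : Fin m → K) (hab : ∀ j, 4 * a j ^ 3 + 27 * b j ^ 2 ≠ 0)
    (hxy : ∀ j, y j ^ 2 = x j ^ 3 + algebraMap k K (a j) * x j + algebraMap k K (b j))
    (hS : ∀ j, ∀ P : Place k K, P ∉ S → P.ord (u j) = 0)
    (hnc : (∃ j, ∀ c : k, x j ≠ algebraMap k K c) ∨ ∃ j, ∀ c : k, u j ≠ algebraMap k K c) :
    ∃ D : Derivation k K K, D ≠ 0 ∧ pol D ≤ canDeg k K + S.card := by
  obtain ⟨D0, hD0⟩ := exists_der (k := k) (K := K)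
  rcases hnc with ⟨j, hj⟩ | ⟨j, hj⟩
  · obtain ⟨-, -, h1, h2⟩ := ell_norm (hab j) (hxy j) hD0 hj S
    exact ⟨_, h1, pol_le h1 S h2⟩
  · obtain ⟨-, -, h1, h2⟩ := unit_norm hD0 hj S (hS j)
    exact ⟨_, h1, pol_le h1 S h2⟩

/-- the speeds of the points -/
theorem speed_x {x y : K} {a b : k} (hab : 4 * a ^ 3 + 27 * b ^ 2 ≠ 0)
    (hxy : y ^ 2 = x ^ 3 + algebraMap k K a * x + algebraMap k K b) {D : Derivation k K K}
    (hD : D ≠ 0) (S : Finset (Place k K)) :
    D x = D x / y * y ∧ hgt k (D x / y) ≤ pol D + S.card := by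
  have h0 : 0 ≤ pol D + S.card := add_nonneg (pol_nonneg D) (by positivity)
  by_cases hx : ∀ c : k, x ≠ algebraMap k K c
  · have h1 := ell_norm hab hxy hD hx S
    exact ⟨(div_mul_cancel₀ _ h1.2.1).symm, hgt_speed hD S h1⟩
  · push Not at hx
    obtain ⟨c, rfl⟩ := hx
    rw [D.map_algebraMap, zero_div, zero_mul, hgt_zero]
    exact ⟨rfl, h0⟩

theorem speed_u {u : K} (hu : u ≠ 0) {D : Derivation k K K} (hD : D ≠ 0)
    (S : Finset (Place k K)) (hS : ∀ P : Place k K, P ∉ S → P.ord u = 0) :
    D u = D u / u * u ∧ hgt k (D u / u) ≤ pol D + S.card := by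
  have h0 : 0 ≤ pol D + S.card := add_nonneg (pol_nonneg D) (by positivity)
  refine ⟨(div_mul_cancel₀ _ hu).symm, ?_⟩
  by_cases hx : ∀ c : k, u ≠ algebraMap k K c
  · exact hgt_speed hD S (unit_norm hD hx S hS)
  · push Not at hx
    obtain ⟨c, rfl⟩ := hx
    rw [D.map_algebraMap, zero_div, hgt_zero]
    exact h0

end one

theorem ult {k : Type} [Field k] [IsAlgClosed k] [CharZero k] {L : ℕ → Type} [∀ i, Field (L i)]
    [∀ i, Algebra k (L i)] [∀ i, IsFF k (L i)] {N r n m D : ℕ} {ι κ : Type} [Finite κ]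
    {F : ι → MvPolynomial (Fin (N + 1) ⊕ Fin r) k} {J : κ → MvPolynomial (Fin (N + 1) ⊕ Fin r) k}
    (hFJ : LowGenusIn F J) (S : ∀ i, Finset (Place k (L i))) (d : ℕ → ℕ)
    (x y : ∀ i, Fin n → L i) (a b : ℕ → Fin n → k) (u : ∀ i, Fin m → L i)
    (P : ∀ i, Fin (N + 1) → MvPolynomial (Fin n ⊕ Fin n ⊕ Fin m) (L i))
    (hab : ∀ i j, 4 * a i j ^ 3 + 27 * b i j ^ 2 ≠ 0)
    (hxy : ∀ i j, y i j ^ 2 = x i j ^ 3 + algebraMap k (L i) (a i j) * x i j +
      algebraMap k (L i) (b i j))
    (hu : ∀ i j, u i j ≠ 0) (hS : ∀ i j, ∀ Q : Place k (L i), Q ∉ S i → Q.ord (u i j) = 0)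
    (hP : ∀ i j, (P i j).totalDegree ≤ D) (hd : ∀ i j α, hgt k ((P i j).coeff α) ≤ d i)
    (t : ∀ i, Fin r → L i) (ht : ∀ i l, hgt k (t i l) ≤ d i) (f : ∀ i, Fin (N + 1) → L i)
    (hf : ∀ i j, f i j = eval (Sum.elim (x i) (Sum.elim (y i) (u i))) (P i j))
    (hF : ∀ i e, aeval (Sum.elim (f i) (t i)) (F e) = 0)
    (hJ : ∀ i, ∃ e, aeval (Sum.elim (f i) (t i)) (J e) ≠ 0)
    (hf0 : ∀ i, ∃ j, f i j ≠ 0)
    (hT : ∀ i : ℕ, (i : ℤ) * (max (canDeg k (L i)) 0 + (S i).card + d i) < pht k (f i)) :
    False := by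
  classical
  obtain ⟨χ, hχd⟩ : ∃ χ : ℕ → ℤ, ∀ i, χ i = max (canDeg k (L i)) 0 + (S i).card + d i :=
    ⟨_, fun _ => rfl⟩
  have hχ : ∀ i, 0 ≤ χ i := by
    intro i
    rw [hχd]
    have := le_max_right (canDeg k (L i)) 0
    positivity
  simp only [← hχd] at hT
  obtain ⟨C, hC⟩ : ∃ C : ℕ, C = (N + 1) * (2 * (box (Fin n ⊕ Fin n ⊕ Fin m) D).card) := ⟨_, rfl⟩
  -- the derivations
  have hder : ∀ i, ∃ E : Derivation k (L i) (L i), E ≠ 0 ∧ (C ≤ i → pol E ≤ χ i) := by
    intro i
    by_cases hi : C ≤ i
    · obtain ⟨E, h1, h2⟩ := exists_der_pol (S i) (x i) (y i) (a i) (b i) (u i) (hab i) (hxy i)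
        (hS i) (by
          by_contra hcon
          push Not at hcon
          obtain ⟨h1, h2⟩ := hcon
          have h3 : ∀ s, ∃ c : k, Sum.elim (x i) (Sum.elim (y i) (u i)) s =
              algebraMap k (L i) c := by
            rintro (j | j | j)
            · exact h1 j
            · exact const_y (hxy i j) (h1 j)
            · exact h2 j
          have h4 : f i = fun j => eval (Sum.elim (x i) (Sum.elim (y i) (u i))) (P i j) :=
            funext (hf i)
          have h5 := pht_const (hP i) (hd i) h3 (by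
            obtain ⟨j, hj⟩ := hf0 i
            exact ⟨j, by rw [← hf]; exact hj⟩)
          rw [← h4, ← hC] at h5
          have h6 := hT i
          have h7 : (d i : ℤ) ≤ χ i := by
            rw [hχd]
            have := le_max_right (canDeg k (L i)) 0
            have h8 : (0 : ℤ) ≤ (S i).card := by positivity
            linarith
          have h8 : (C : ℤ) ≤ i := by exact_mod_cast hi
          have h9 : (C : ℤ) * d i ≤ i * χ i :=
            mul_le_mul h8 h7 (by positivity) (by positivity)
          linarith)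
      refine ⟨E, h1, fun _ => h2.trans ?_⟩
      rw [hχd]
      have := le_max_left (canDeg k (L i)) 0
      have h8 : (0 : ℤ) ≤ d i := by positivity
      linarith
    · obtain ⟨E, hE⟩ := exists_der (k := k) (K := L i)
      exact ⟨E, hE, fun h => absurd h hi⟩
  choose E hE0 hEp using hder
  have hlarge : ∀ᶠ i in (hyperfilter ℕ : Filter ℕ), C ≤ i :=
    Nat.hyperfilter_le_atTop (eventually_ge_atTop C)
  have hSχ : ∀ i, ((S i).card : ℤ) ≤ χ i := by
    intro i
    rw [hχd]
    have := le_max_right (canDeg k (L i)) 0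
    have h8 : (0 : ℤ) ≤ d i := by positivity
    linarith
  have hdχ : ∀ i, (d i : ℤ) ≤ χ i := by
    intro i
    rw [hχd]
    have := le_max_right (canDeg k (L i)) 0
    have h8 : (0 : ℤ) ≤ (S i).card := by positivity
    linarith
  -- the data of the ultraproduct
  let G : Dat k (UL L) (Fin n) (Fin m) :=
    { D := DU E
      S := small χ hχ
      x := fun j => um fun i => x i j
      y := fun j => um fun i => y i j
      a := fun j => um fun i => algebraMap k (L i) (a i j)
      b := fun j => um fun i => algebraMap k (L i) (b i j)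
      u := fun j => um fun i => u i j
      c := fun j => um fun i => E i (x i j) / y i j
      e := fun j => um fun i => E i (u i j) / u i j
      kerS := by
        intro z hz
        obtain ⟨w, rfl⟩ := um_surj z
        rw [DU_um, um_zero_iff] at hz
        rw [mem_small]
        refine ⟨0, ?_⟩
        filter_upwards [hz] with i hi
        rw [hgt_const (const_of_der (hE0 i) hi)]
        simp
      stable := by
        intro z hz
        obtain ⟨w, rfl⟩ := um_surj z
        rw [mem_small] at hz
        obtain ⟨B, hB⟩ := hz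
        rw [DU_um, mem_small]
        refine ⟨2 * B + 1, ?_⟩
        filter_upwards [hB, hlarge] with i h1 h2
        refine (hgt_der (hE0 i) (w i)).trans ?_
        have h3 := hEp i h2
        push_cast
        linarith
      closed := fun z hz => small_closed hχ hz
      cS := by
        intro j
        rw [mem_small]
        refine ⟨2, ?_⟩
        filter_upwards [hlarge] with i h2
        refine (speed_x (hab i j) (hxy i j) (hE0 i) (S i)).2.trans ?_
        have h3 := hEp i h2
        have h4 := hSχ i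
        push_cast
        linarith
      eS := by
        intro j
        rw [mem_small]
        refine ⟨2, ?_⟩
        filter_upwards [hlarge] with i h2
        refine (speed_u (hu i j) (hE0 i) (S i) (hS i j)).2.trans ?_
        have h3 := hEp i h2
        have h4 := hSχ i
        push_cast
        linarith
      hxy := by
        intro j
        rw [← um_pow, ← um_pow, ← um_mul, ← um_add, ← um_add]
        congr 1
        funext i
        exact hxy i j
      Da := by
        intro j
        rw [DU_um, um_zero_iff]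
        exact Eventually.of_forall fun i => (E i).map_algebraMap _
      Db := by
        intro j
        rw [DU_um, um_zero_iff]
        exact Eventually.of_forall fun i => (E i).map_algebraMap _
      Dx := by
        intro j
        rw [DU_um, ← um_mul]
        congr 1
        funext i
        exact (speed_x (hab i j) (hxy i j) (hE0 i) (S i)).1
      u0 := by
        intro j
        rw [um_ne_iff]
        exact Eventually.of_forall fun i => hu i j
      Du := by
        intro j
        rw [DU_um, ← um_mul]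
        congr 1
        funext i
        exact (speed_u (hu i j) (hE0 i) (S i) (hS i j)).1 }
  have hcoef : ∀ j α, um (fun i => (P i j).coeff α) ∈ (small χ hχ : IntermediateField k (UL L)) := by
    intro j α
    rw [mem_small]
    refine ⟨1, Eventually.of_forall fun i => ?_⟩
    refine (hd i j α).trans ?_
    have := hdχ i
    push_cast
    linarith
  obtain ⟨PU, hPU⟩ : ∃ PU : Fin (N + 1) → MvPolynomial (Fin n ⊕ Fin n ⊕ Fin m) G.S,
      ∀ j, PU j = ∑ α ∈ box (Fin n ⊕ Fin n ⊕ Fin m) D,
        monomial α (⟨um (fun i => (P i j).coeff α), hcoef j α⟩ : G.S) := ⟨_, fun _ => rfl⟩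
  have hfU : ∀ j, um (fun i => f i j) =
      aeval (Sum.elim G.x (Sum.elim G.y G.u)) (PU j) := by
    intro j
    rw [hPU, map_sum]
    have h1 : (fun i => f i j) = fun i => ∑ α ∈ box (Fin n ⊕ Fin n ⊕ Fin m) D,
        (P i j).coeff α * ∏ s, Sum.elim (x i) (Sum.elim (y i) (u i)) s ^ α s := by
      funext i
      rw [hf, eval_box (hP i j)]
    rw [h1, um_sum (box (Fin n ⊕ Fin n ⊕ Fin m) D) (fun α i => (P i j).coeff α *
      ∏ s, Sum.elim (x i) (Sum.elim (y i) (u i)) s ^ α s)]
    refine Finset.sum_congr rfl fun α _ => ?_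
    rw [um_mul, um_prod Finset.univ (fun s i => Sum.elim (x i) (Sum.elim (y i) (u i)) s ^ α s),
      aeval_monomial, Finsupp.prod_fintype _ _ (fun s => pow_zero _)]
    have h2 : algebraMap G.S (UL L) (⟨um (fun i => (P i j).coeff α), hcoef j α⟩ : G.S) =
        um (fun i => (P i j).coeff α) := rfl
    rw [h2]
    congr 1
    refine Finset.prod_congr rfl fun s _ => ?_
    rw [um_pow]
    congr 1
    rcases s with s | s | s <;> rfl
  have htU : ∀ l, um (fun i => t i l) ∈ G.S := by
    intro l
    change um (fun i => t i l) ∈ (small χ hχ : IntermediateField k (UL L))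
    rw [mem_small]
    refine ⟨1, Eventually.of_forall fun i => ?_⟩
    refine (ht i l).trans ?_
    have := hdχ i
    push_cast
    linarith
  have hev : ∀ H : MvPolynomial (Fin (N + 1) ⊕ Fin r) k,
      um (fun i => aeval (Sum.elim (f i) (t i)) H) =
      aeval (Sum.elim (fun j => um (fun i => f i j)) fun l => um (fun i => t i l)) H := by
    intro H
    have h1 := um_aeval (fun (s : Fin (N + 1) ⊕ Fin r) i => Sum.elim (f i) (t i) s) H
    have h2 : (fun s : Fin (N + 1) ⊕ Fin r => um (fun i => Sum.elim (f i) (t i) s)) =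
        Sum.elim (fun j => um (fun i => f i j)) fun l => um (fun i => t i l) := by
      funext s
      rcases s with s | s <;> rfl
    rw [h2] at h1
    exact h1
  have hFU : ∀ e, aeval (Sum.elim (fun j => um (fun i => f i j)) fun l => um (fun i => t i l))
      (F e) = 0 := by
    intro e
    rw [← hev, um_zero_iff]
    exact Eventually.of_forall fun i => hF i e
  obtain ⟨e, he⟩ := exists_index hJ
  have hJU : aeval (Sum.elim (fun j => um (fun i => f i j)) fun l => um (fun i => t i l))
      (J e) ≠ 0 := by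
    rw [← hev, um_ne_iff]
    exact he
  obtain ⟨l, hl⟩ := exists_index hf0
  have hlU : um (fun i => f i l) ≠ 0 := um_ne_iff.2 hl
  have key : ∀ j, ∃ B : ℕ, ∀ᶠ i in (hyperfilter ℕ : Filter ℕ),
      hgt k (f i j / f i l) ≤ B * χ i := by
    intro j
    have h1 := core G hFJ (f := fun j => um (fun i => f i j)) htU PU hfU hFU hJU (i0 := j)
      (j0 := l) hlU
    rw [← um_div] at h1
    exact (mem_small (hχ := hχ)).1 h1
  choose B hB using key
  have hfin : ∀ᶠ i in (hyperfilter ℕ : Filter ℕ), ∑ j, B j ≤ i :=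
    Nat.hyperfilter_le_atTop (eventually_ge_atTop _)
  obtain ⟨i, h1, h2, h3⟩ := (hfin.and ((eventually_all.2 hB).and hl)).exists
  have h4 := pht_le (k := k) (f i) h3
  have h5 : ∑ j, hgt k (f i j / f i l) ≤ ∑ j, (B j : ℤ) * χ i := Finset.sum_le_sum fun j _ => h2 j
  rw [← Finset.sum_mul] at h5
  have h6 : ((∑ j, B j : ℕ) : ℤ) ≤ i := by exact_mod_cast h1
  push_cast at h6
  have h7 := mul_le_mul_of_nonneg_right h6 (hχ i)
  have h8 := hT i
  linarith

end Pool.Agent.E8helper90.AF
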