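import Pool.Agent.E8helper90.AF.Vo
import Pool.Agent.W603.CY.Ultra

/-!
Heights of derivatives, of logarithmic derivatives of units and of the speeds of points of
elliptic curves.
-/

set_option autoImplicit false

namespace Pool.Agent.E8helper90.AF

open FF Pool.Agent.W603.LV Pool.Agent.W603.PV
open Pool.Agent.W603.CY (hgt_add_le hgt_mul_le)

variable {k K : Type} [Field k] [Field K] [Algebra k K]

/-- the number of poles of a derivation -/
noncomputable def pol (D : Derivation k K K) : ℤ := ∑ᶠ P : Place k K, max (-vo P D) 0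

theorem pol_nonneg (D : Derivation k K K) : 0 ≤ pol D := finsum_nonneg fun _ => le_max_right _ _

theorem pol_finset (D : Derivation k K K) (T : Finset (Place k K))
    (hT : ∀ P, vo P D ≠ 0 → P ∈ T) : pol D = ∑ P ∈ T, max (-vo P D) 0 := by
  unfold pol
  rw [finsum_eq_sum_of_support_subset (s := T)]
  intro P hP
  apply hT P
  intro h
  apply hP
  simp [h]

variable [CharZero k] [IsFF k K] [IsAlgClosed k]

/-- the places where functions or derivations have zeros or poles -/
theorem exists_supp' {D D' : Derivation k K K} (hD : D ≠ 0) (hD' : D' ≠ 0) (f g : K) :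
    ∃ T : Finset (Place k K), (∀ P, vo P D ≠ 0 → P ∈ T) ∧ (∀ P, vo P D' ≠ 0 → P ∈ T) ∧
      (∀ P : Place k K, P.ord f ≠ 0 → P ∈ T) ∧ ∀ P : Place k K, P.ord g ≠ 0 → P ∈ T := by
  classical
  refine ⟨(vo_finite hD).toFinset ∪ (vo_finite hD').toFinset ∪
    (finite_support (k := k) f).toFinset ∪ (finite_support (k := k) g).toFinset, ?_, ?_, ?_, ?_⟩
  · intro P hP
    simp [hP]
  · intro P hP
    simp [hP]
  · intro P hP
    simp [hP]
  · intro P hP
    simp [hP]

theorem hgt_der {D : Derivation k K K} (hD : D ≠ 0) (g : K) :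
    hgt k (D g) ≤ 2 * hgt k g + pol D := by
  obtain ⟨T, h1, -, h2, h3⟩ := exists_supp' hD hD g (D g)
  rw [hgt_finset _ T h3, hgt_finset _ T h2, pol_finset _ T h1, Finset.mul_sum,
    ← Finset.sum_add_distrib]
  refine Finset.sum_le_sum fun P _ => ?_
  by_cases hg0 : D g = 0
  · rw [hg0, P.ord_zero]
    have := le_max_right (-P.ord g) 0
    have := le_max_right (-vo P D) 0
    simp only [neg_zero, max_self]
    linarith
  by_cases hg : P.ord g < 0
  · have h4 := (ord_der P hD hg.ne).2
    rw [h4]
    omega
  · push Not at hg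
    obtain ⟨g', hg', e⟩ := der_mul P (ord_unif P) hD (f := g) (Or.inr hg)
    have hg'0 : g' ≠ 0 := by
      rintro rfl
      rw [mul_zero] at e
      exact hg0 e
    have hDπ : D (unif P) ≠ 0 := by
      intro h
      rw [h, zero_mul] at e
      exact hg0 e
    have h4 : P.ord (D g) = vo P D + P.ord g' := by
      rw [e, P.ord_mul hDπ hg'0]
      rfl
    have h5 := hg'.resolve_left hg'0
    rw [h4]
    omega

/-- the invariant vector field of an elliptic curve -/
theorem ell_vo {x y : K} {a b : k} (hab : 4 * a ^ 3 + 27 * b ^ 2 ≠ 0)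
    (hxy : y ^ 2 = x ^ 3 + algebraMap k K a * x + algebraMap k K b)
    {D : Derivation k K K} (hD : D ≠ 0) (hDx : D x = y) (hx : ∀ c : k, x ≠ algebraMap k K c)
    (P : Place k K) : vo P D ≤ 0 := by
  have hch : CharZero K := charZero_of_injective_algebraMap (algebraMap k K).injective
  by_cases hr : Ge P 0 x
  · obtain ⟨c, hc⟩ := exists_const P hr
    have h1 : x - algebraMap k K c ≠ 0 := fun h => hx c (sub_eq_zero.1 h)
    have h2 := hc.resolve_left h1
    have h3 := ord_der P hD (f := x - algebraMap k K c) (by omega)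
    rw [map_sub, D.map_algebraMap, sub_zero, hDx] at h3
    obtain ⟨hy0, h3⟩ := h3
    have h4 := (reg_coords P hxy hr).resolve_left hy0
    by_cases h5 : P.ord y = 0
    · omega
    · obtain ⟨h6, h7⟩ := ord_der P hD h5
      -- the derivative of the second coordinate
      have h8 : 2 * D y = 3 * x ^ 2 + algebraMap k K a := by
        have e := congrArg D hxy
        rw [map_add, map_add, Derivation.leibniz_pow, Derivation.leibniz_pow, Derivation.leibniz,
          D.map_algebraMap, D.map_algebraMap, hDx] at e
        simp only [smul_eq_mul, nsmul_eq_mul, Nat.cast_ofNat] at e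
        apply mul_left_cancel₀ hy0
        linear_combination e
      have h9 : Ge P 1 (x - algebraMap k K c) := hc
      have hy1 : Ge P 1 y := Or.inr (by omega)
      have h10 : c ^ 3 + a * c + b = 0 := by
        by_contra hne
        have e1 : Ge P 1 (algebraMap k K (c ^ 3 + a * c + b)) := by
          have e2 : algebraMap k K (c ^ 3 + a * c + b) = y * y -
              (x - algebraMap k K c) * (x ^ 2 + x * algebraMap k K c + algebraMap k K c ^ 2) -
              algebraMap k K a * (x - algebraMap k K c) := by
            simp only [map_add, map_mul, map_pow]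
            linear_combination -hxy
          rw [e2]
          have hcc : Ge P 0 (algebraMap k K c) := Ge.const c
          have e3 : Ge P 0 (x ^ 2 + x * algebraMap k K c + algebraMap k K c ^ 2) := by
            have := hr.pow 2
            rw [mul_zero] at this
            have h' := hcc.pow 2
            rw [mul_zero] at h'
            have h'' := hr.mul hcc
            rw [add_zero] at h''
            exact (this.add h'').add h'
          have e4 := h9.mul e3
          have e5 := (Ge.const (P := P) a).mul h9
          have e6 := hy1.mul hy1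
          rw [add_zero] at e4
          rw [zero_add] at e5
          exact ((e6.mono (by norm_num)).sub e4).sub e5
        have e2 := e1.resolve_left (by
          intro h
          exact hne ((map_eq_zero _).1 h))
        rw [P.ord_const hne] at e2
        omega
      have h11 : 3 * c ^ 2 + a ≠ 0 := by
        intro h
        apply hab
        have e1 : a = -3 * c ^ 2 := by linear_combination h
        have e2 : b = 2 * c ^ 3 := by
          rw [e1] at h10
          linear_combination h10
        rw [e1, e2]
        ring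
      have h12 : P.ord (2 * D y) = 0 := by
        rw [h8]
        have e1 : 3 * x ^ 2 + algebraMap k K a = algebraMap k K (3 * c ^ 2 + a) +
            3 * (x - algebraMap k K c) * (x + algebraMap k K c) := by
          simp only [map_add, map_mul, map_pow, map_ofNat]
          ring
        have e2 : Ge P 1 (3 * (x - algebraMap k K c) * (x + algebraMap k K c)) := by
          have h3' : (3 : K) = algebraMap k K 3 := by rw [map_ofNat]
          have hcc : Ge P 0 (algebraMap k K c) := Ge.const c
          rw [h3']
          have := ((Ge.const (P := P) (3 : k)).mul h9).mul (hr.add hcc)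
          rw [zero_add, add_zero] at this
          exact this
        have e3 : algebraMap k K (3 * c ^ 2 + a) ≠ 0 := fun h => h11 ((map_eq_zero _).1 h)
        rw [e1]
        by_cases e4 : 3 * (x - algebraMap k K c) * (x + algebraMap k K c) = 0
        · rw [e4, add_zero, P.ord_const h11]
        · rw [(P.ord_add_eq e3 e4 (by
            rw [P.ord_const h11]
            have := e2.resolve_left e4
            omega)).2, P.ord_const h11]
      have h13 : (2 : K) = algebraMap k K 2 := by rw [map_ofNat]
      rw [h13, P.ord_mul (by rw [← h13]; exact two_ne_zero) h6, P.ord_const two_ne_zero,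
        zero_add] at h12
      omega
  · obtain ⟨hy0, h1, h2⟩ := pole_coords P hxy hr
    have hx0 : x ≠ 0 := fun h => hr (Or.inl h)
    have hxn : P.ord x < 0 := by
      by_contra h
      exact hr (Or.inr (not_lt.1 h))
    have h3 := (ord_der P hD hxn.ne).2
    rw [hDx] at h3
    rw [P.ord_div hx0 hy0] at h1
    omega

/-- the invariant vector field of the multiplicative group -/
theorem unit_vo {u : K} {D : Derivation k K K} (hD : D ≠ 0) (hDu : D u = u)
    (hu : ∀ c : k, u ≠ algebraMap k K c) (P : Place k K) :
    vo P D ≤ 1 ∧ (P.ord u = 0 → vo P D ≤ 0) := by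
  by_cases h0 : P.ord u = 0
  · obtain ⟨c, hc⟩ := exists_const P (Or.inr h0.ge : Ge P 0 u)
    have h1 : u - algebraMap k K c ≠ 0 := fun h => hu c (sub_eq_zero.1 h)
    have h2 := hc.resolve_left h1
    have h3 := (ord_der P hD (f := u - algebraMap k K c) (by omega)).2
    rw [map_sub, D.map_algebraMap, sub_zero, hDu] at h3
    constructor
    · omega
    · intro _
      omega
  · have h3 := (ord_der P hD h0).2
    rw [hDu] at h3
    constructor
    · omega
    · intro h
      exact absurd h h0

/-- derivations with few zeros have few poles -/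
theorem pol_le {D : Derivation k K K} (hD : D ≠ 0) (S : Finset (Place k K))
    (h : ∀ P, vo P D ≤ 1 ∧ (P ∉ S → vo P D ≤ 0)) : pol D ≤ canDeg k K + S.card := by
  classical
  obtain ⟨T0, h1, -, -, -⟩ := exists_supp' hD hD (0 : K) 0
  obtain ⟨T, hT⟩ : ∃ T, T = T0 ∪ S := ⟨_, rfl⟩
  have h2 : ∀ P, vo P D ≠ 0 → P ∈ T := fun P hP => by
    rw [hT]
    exact Finset.mem_union_left _ (h1 P hP)
  have hST : S ⊆ T := by
    rw [hT]
    exact Finset.subset_union_right
  have h3 := canDeg_finset hD T h2
  rw [pol_finset _ T h2]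
  have h4 : canDeg k K = ∑ P ∈ T, -vo P D := by
    rw [Finset.sum_neg_distrib, h3, neg_neg]
  have h5 : (S.card : ℤ) = ∑ P ∈ T, if P ∈ S then 1 else 0 := by
    rw [← Finset.sum_filter, Finset.filter_mem_eq_inter, Finset.inter_eq_right.2 hST]
    simp
  rw [h4, h5, ← Finset.sum_add_distrib]
  refine Finset.sum_le_sum fun P _ => ?_
  obtain ⟨h6, h7⟩ := h P
  by_cases hP : P ∈ S
  · rw [if_pos hP]
    omega
  · rw [if_neg hP]
    have := h7 hP
    omega

theorem hgt_ratio {D D' : Derivation k K K} (hD : D ≠ 0) (hD' : D' ≠ 0) {h : K} (hh : h ≠ 0)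
    (e : D = h • D') (S : Finset (Place k K))
    (hS : ∀ P, vo P D' ≤ 1 ∧ (P ∉ S → vo P D' ≤ 0)) : hgt k h ≤ pol D + S.card := by
  classical
  obtain ⟨T0, h1, -, h2, -⟩ := exists_supp' hD hD' h 0
  obtain ⟨T, hT⟩ : ∃ T, T = T0 ∪ S := ⟨_, rfl⟩
  have h1' : ∀ P, vo P D ≠ 0 → P ∈ T := fun P hP => by
    rw [hT]
    exact Finset.mem_union_left _ (h1 P hP)
  have h2' : ∀ P : Place k K, P.ord h ≠ 0 → P ∈ T := fun P hP => by
    rw [hT]
    exact Finset.mem_union_left _ (h2 P hP)
  have hST : S ⊆ T := by
    rw [hT]
    exact Finset.subset_union_right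
  have h5 : (S.card : ℤ) = ∑ P ∈ T, if P ∈ S then 1 else 0 := by
    rw [← Finset.sum_filter, Finset.filter_mem_eq_inter, Finset.inter_eq_right.2 hST]
    simp
  rw [pol_finset _ T h1', hgt_finset _ T h2', h5, ← Finset.sum_add_distrib]
  refine Finset.sum_le_sum fun P _ => ?_
  have h3 : vo P D = P.ord h + vo P D' := by
    rw [e]
    exact vo_smul P hD' hh
  obtain ⟨h6, h7⟩ := hS P
  by_cases hP : P ∈ S
  · rw [if_pos hP]
    omega
  · rw [if_neg hP]
    have := h7 hP
    omega

omit [CharZero k] [IsFF k K] [IsAlgClosed k] in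
theorem smul_ne {D : Derivation k K K} (hD : D ≠ 0) {h : K} (hh : h ≠ 0) : h • D ≠ 0 := by
  intro h0
  apply hD
  ext z
  have h1 : h * D z = 0 := by
    have := congrArg (fun E : Derivation k K K => E z) h0
    exact this
  exact (mul_eq_zero.1 h1).resolve_left hh

/-- the normalised vector field of a point of an elliptic curve -/
theorem ell_norm {x y : K} {a b : k} (hab : 4 * a ^ 3 + 27 * b ^ 2 ≠ 0)
    (hxy : y ^ 2 = x ^ 3 + algebraMap k K a * x + algebraMap k K b)
    {D : Derivation k K K} (hD : D ≠ 0) (hx : ∀ c : k, x ≠ algebraMap k K c)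
    (S : Finset (Place k K)) :
    D x ≠ 0 ∧ y ≠ 0 ∧ (y / D x) • D ≠ 0 ∧
      ∀ P, vo P ((y / D x) • D) ≤ 1 ∧ (P ∉ S → vo P ((y / D x) • D) ≤ 0) := by
  have h1 : D x ≠ 0 := by
    intro h
    obtain ⟨c, hc⟩ := const_of_der hD h
    exact hx c hc
  have h2 : y ≠ 0 := by
    intro h
    rw [h] at hxy
    have e := congrArg D hxy
    rw [map_add, map_add, Derivation.leibniz_pow, Derivation.leibniz_pow, Derivation.leibniz,
      D.map_algebraMap, D.map_algebraMap, map_zero] at e
    simp only [smul_eq_mul, nsmul_eq_mul, Nat.cast_ofNat] at e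
    have h3 : (3 * x ^ 2 + algebraMap k K a) * D x = 0 := by linear_combination -e
    have h4 := (mul_eq_zero.1 h3).resolve_right h1
    -- the first coordinate is algebraic
    have h5 : x * algebraMap k K (2 * a) = algebraMap k K (-3 * b) := by
      simp only [map_mul, map_neg, map_ofNat]
      linear_combination -3 * hxy - x * h4
    by_cases ha : a = 0
    · rw [ha, map_zero, add_zero] at h4
      have h6 : x = 0 := by
        have hch : CharZero K := charZero_of_injective_algebraMap (algebraMap k K).injective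
        have := (mul_eq_zero.1 h4).resolve_left (by norm_num)
        exact pow_eq_zero_iff (n := 2) (by norm_num) |>.1 this
      exact hx 0 (by rw [h6, map_zero])
    · have h7 : algebraMap k K (2 * a) ≠ 0 := by
        rw [Ne, map_eq_zero]
        exact mul_ne_zero two_ne_zero ha
      apply hx (-3 * b / (2 * a))
      rw [map_div₀, eq_div_iff h7]
      exact h5
  have h3 : y / D x ≠ 0 := div_ne_zero h2 h1
  refine ⟨h1, h2, smul_ne hD h3, fun P => ?_⟩
  have h4 := ell_vo hab hxy (smul_ne hD h3) (by
    rw [Derivation.smul_apply, smul_eq_mul, div_mul_cancel₀ _ h1]) hx P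
  exact ⟨h4.trans (by norm_num), fun _ => h4⟩

/-- the normalised vector field of a unit -/
theorem unit_norm {u : K} {D : Derivation k K K} (hD : D ≠ 0)
    (hu : ∀ c : k, u ≠ algebraMap k K c) (S : Finset (Place k K))
    (hS : ∀ P : Place k K, P ∉ S → P.ord u = 0) :
    D u ≠ 0 ∧ u ≠ 0 ∧ (u / D u) • D ≠ 0 ∧
      ∀ P, vo P ((u / D u) • D) ≤ 1 ∧ (P ∉ S → vo P ((u / D u) • D) ≤ 0) := by
  have h1 : D u ≠ 0 := by
    intro h
    obtain ⟨c, hc⟩ := const_of_der hD h
    exact hu c hc
  have h2 : u ≠ 0 := fun h => hu 0 (by rw [h, map_zero])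
  have h3 : u / D u ≠ 0 := div_ne_zero h2 h1
  refine ⟨h1, h2, smul_ne hD h3, fun P => ?_⟩
  have h4 := unit_vo (smul_ne hD h3) (by
    rw [Derivation.smul_apply, smul_eq_mul, div_mul_cancel₀ _ h1]) hu P
  exact ⟨h4.1, fun hP => h4.2 (hS P hP)⟩

/-- height of the speed -/
theorem hgt_speed {x y : K} {D : Derivation k K K} (hD : D ≠ 0) (S : Finset (Place k K))
    (h : D x ≠ 0 ∧ y ≠ 0 ∧ (y / D x) • D ≠ 0 ∧
      ∀ P, vo P ((y / D x) • D) ≤ 1 ∧ (P ∉ S → vo P ((y / D x) • D) ≤ 0)) :
    hgt k (D x / y) ≤ pol D + S.card := by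
  obtain ⟨h1, h2, h3, h4⟩ := h
  refine hgt_ratio hD h3 (div_ne_zero h1 h2) ?_ S h4
  rw [smul_smul]
  have h5 : D x / y * (y / D x) = 1 := by field_simp
  rw [h5, one_smul]

end Pool.Agent.E8helper90.AF
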