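import Mathlib

/-!
Taylor series along a derivation.
-/

set_option autoImplicit false

namespace Pool.Agent.E8helper90.AF

attribute [-instance] HahnSeries.powerSeriesAlgebra

section tay

variable {k : Type} [Field k] {A : Type} [CommRing A] [Algebra k A]

/-- the Taylor series -/
noncomputable def tayF (E : Derivation k A A) (π : A →ₐ[k] k) (g : A) : PowerSeries k :=
  PowerSeries.mk fun m => π ((⇑E)^[m] g) * (m.factorial : k)⁻¹

variable (E : Derivation k A A) (π : A →ₐ[k] k)

theorem tayF_coeff (g : A) (m : ℕ) :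
    PowerSeries.coeff m (tayF E π g) = π ((⇑E)^[m] g) * (m.factorial : k)⁻¹ :=
  PowerSeries.coeff_mk _ _

theorem tayF_const (g : A) : PowerSeries.coeff 0 (tayF E π g) = π g := by
  rw [tayF_coeff]
  simp

theorem tayF_add (g h : A) : tayF E π (g + h) = tayF E π g + tayF E π h := by
  ext m
  rw [map_add, tayF_coeff, tayF_coeff, tayF_coeff, iterate_map_add, map_add, add_mul]

theorem tayF_zero : tayF E π 0 = 0 := by
  ext m
  rw [tayF_coeff, iterate_map_zero, map_zero, zero_mul, map_zero]

theorem tayF_alg (c : k) : tayF E π (algebraMap k A c) = PowerSeries.C c := by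
  ext m
  rw [tayF_coeff, PowerSeries.coeff_C]
  cases m with
  | zero => simp
  | succ m =>
    rw [Function.iterate_succ_apply, E.map_algebraMap, iterate_map_zero, map_zero, zero_mul,
      if_neg (Nat.succ_ne_zero m)]

variable [CharZero k]

theorem tayF_der (g : A) : tayF E π (E g) = PowerSeries.derivative k (tayF E π g) := by
  ext m
  rw [PowerSeries.coeff_derivative, tayF_coeff, tayF_coeff, Function.iterate_succ_apply,
    Nat.factorial_succ]
  have h1 : (m + 1 : k) ≠ 0 := by exact_mod_cast Nat.succ_ne_zero m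
  have h2 : (m.factorial : k) ≠ 0 := by exact_mod_cast Nat.factorial_ne_zero m
  push_cast
  field_simp

theorem tayF_mul (g h : A) : tayF E π (g * h) = tayF E π g * tayF E π h := by
  have key : ∀ (m : ℕ) (g h : A), PowerSeries.coeff m (tayF E π (g * h)) =
      PowerSeries.coeff m (tayF E π g * tayF E π h) := by
    intro m
    induction m with
    | zero =>
      intro g h
      have h0 := map_mul (PowerSeries.constantCoeff (R := k)) (tayF E π g) (tayF E π h)
      simp only [← PowerSeries.coeff_zero_eq_constantCoeff_apply] at h0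
      rw [h0, tayF_const, tayF_const, tayF_const, map_mul]
    | succ m ih =>
      intro g h
      have h1 : (m + 1 : k) ≠ 0 := by exact_mod_cast Nat.succ_ne_zero m
      apply mul_right_cancel₀ h1
      rw [← PowerSeries.coeff_derivative, ← PowerSeries.coeff_derivative, ← tayF_der,
        E.leibniz, tayF_add, map_add, smul_eq_mul, smul_eq_mul, ih, ih, tayF_der, tayF_der,
        Derivation.leibniz, map_add, smul_eq_mul, smul_eq_mul]
  ext m
  exact key m g h

end tay

noncomputable section lau

variable (K : Type) [Field K]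

/-- `z d/dz` on Laurent series. -/
def thL : LaurentSeries K →ₗ[K] LaurentSeries K where
  toFun f := ⟨fun n => (n : K) * f.coeff n, f.isPWO_support.mono (by
    intro n hn
    rw [Function.mem_support] at hn
    exact fun h => hn (by rw [h, mul_zero]))⟩
  map_add' f g := by
    ext n
    simp [mul_add]
  map_smul' r f := by
    ext n
    simp only [HahnSeries.coeff_smul, RingHom.id_apply, smul_eq_mul]
    ring

theorem thL_coeff (f : LaurentSeries K) (n : ℤ) : (thL K f).coeff n = (n : K) * f.coeff n := rfl

theorem thL_supp (f : LaurentSeries K) : (thL K f).support ⊆ f.support := by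
  intro n hn
  rw [HahnSeries.mem_support, thL_coeff] at hn
  rw [HahnSeries.mem_support]
  exact fun h => hn (by rw [h, mul_zero])

/-- The derivation `z d/dz`. -/
def th : Derivation K (LaurentSeries K) (LaurentSeries K) :=
  Derivation.mk' (thL K) (by
    intro a b
    ext n
    rw [thL_coeff, smul_eq_mul, smul_eq_mul, HahnSeries.coeff_add, HahnSeries.coeff_mul,
      HahnSeries.coeff_mul_right' b.isPWO_support (thL_supp K b), mul_comm b (thL K a),
      HahnSeries.coeff_mul_left' a.isPWO_support (thL_supp K a), ← Finset.sum_add_distrib,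
      Finset.mul_sum]
    apply Finset.sum_congr rfl
    intro ij hij
    rw [Finset.mem_antidiagonal] at hij
    rw [thL_coeff, thL_coeff, ← hij.2.2]
    push_cast
    ring)

theorem th_coeff (f : LaurentSeries K) (n : ℤ) : (th K f).coeff n = (n : K) * f.coeff n := rfl

/-- The embedding of power series. -/
abbrev co : PowerSeries K →+* LaurentSeries K := HahnSeries.ofPowerSeries ℤ K

theorem co_coeff_neg (p : PowerSeries K) (n : ℤ) (hn : n < 0) : (co K p).coeff n = 0 := by
  rw [HahnSeries.ofPowerSeries_apply]
  apply HahnSeries.embDomain_of_notMem_range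
  rintro ⟨m, hm⟩
  have : (m : ℤ) = n := hm
  omega

theorem co_coeff (p : PowerSeries K) (n : ℕ) : (co K p).coeff n = PowerSeries.coeff n p :=
  HahnSeries.ofPowerSeries_apply_coeff p n

theorem co_inj {p : PowerSeries K} (hp : co K p = 0) : p = 0 :=
  HahnSeries.ofPowerSeries_injective (hp.trans (map_zero (co K)).symm)

theorem alg_eq (c : K) : algebraMap K (LaurentSeries K) c = co K (PowerSeries.C c) := by
  rw [HahnSeries.ofPowerSeries_C, HahnSeries.algebraMap_apply]
  rfl

/-- The derivation `d/dt`. -/
def D0 : Derivation K (LaurentSeries K) (LaurentSeries K) :=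
  (HahnSeries.single (-1 : ℤ) (1 : K)) • th K

theorem D0_coeff (f : LaurentSeries K) (n : ℤ) :
    (D0 K f).coeff n = ((n + 1 : ℤ) : K) * f.coeff (n + 1) := by
  rw [D0, Derivation.smul_apply, smul_eq_mul, HahnSeries.coeff_single_mul, th_coeff, one_mul,
    sub_neg_eq_add]

theorem D0_co (p : PowerSeries K) : D0 K (co K p) = co K (PowerSeries.derivative K p) := by
  ext n
  rw [D0_coeff]
  rcases lt_or_ge n 0 with hn | hn
  · rw [co_coeff_neg K _ n hn]
    rcases lt_or_ge (n + 1) 0 with hn' | hn'
    · rw [co_coeff_neg K p _ hn', mul_zero]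
    · have h1 : n + 1 = 0 := by omega
      rw [h1, Int.cast_zero, zero_mul]
  · obtain ⟨m, rfl⟩ := Int.eq_ofNat_of_zero_le hn
    have h1 : ((m : ℤ) + 1) = ((m + 1 : ℕ) : ℤ) := by push_cast; rfl
    rw [h1, co_coeff, co_coeff, PowerSeries.coeff_derivative]
    push_cast
    ring

end lau

section tl

variable {k : Type} [Field k] [CharZero k] {A : Type} [CommRing A] [Algebra k A]
  (E : Derivation k A A) (π : A →ₐ[k] k)

/-- the Taylor series as a Laurent series -/
noncomputable def tl : A →ₐ[k] LaurentSeries k where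
  toFun g := co k (tayF E π g)
  map_one' := by
    have h1 := tayF_alg E π (1 : k)
    rw [map_one] at h1
    rw [h1, map_one, map_one]
  map_mul' g h := by rw [tayF_mul, map_mul]
  map_zero' := by rw [tayF_zero, map_zero]
  map_add' g h := by rw [tayF_add, map_add]
  commutes' c := by rw [tayF_alg, alg_eq]

theorem tl_apply (g : A) : tl E π g = co k (tayF E π g) := rfl

theorem D0_tl (g : A) : D0 k (tl E π g) = tl E π (E g) := by
  rw [tl_apply, tl_apply, D0_co, tayF_der]

theorem tl_ne {g : A} (hg : π g ≠ 0) : tl E π g ≠ 0 := by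
  intro h
  rw [tl_apply] at h
  have h1 := co_inj k h
  apply hg
  rw [← tayF_const E π g, h1, map_zero]

theorem tl_const {g : A} (hg : E g = 0) : tl E π g = algebraMap k _ (π g) := by
  rw [tl_apply, alg_eq]
  congr 1
  ext m
  rw [tayF_coeff, PowerSeries.coeff_C]
  cases m with
  | zero => simp
  | succ m =>
    rw [Function.iterate_succ_apply, hg, iterate_map_zero, map_zero, zero_mul,
      if_neg (Nat.succ_ne_zero m)]

end tl

/-- points of affine varieties -/
theorem exists_point {k : Type} [Field k] [IsAlgClosed k] {A : Type} [CommRing A] [IsDomain A]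
    [Algebra k A] [Algebra.FiniteType k A] {r : A} (hr : r ≠ 0) : ∃ π : A →ₐ[k] k, π r ≠ 0 := by
  have h1 : IsJacobsonRing A := isJacobsonRing_of_finiteType (A := k) (B := A)
  have h2 : (⊥ : Ideal A).jacobson = ⊥ := by
    rw [← Ideal.radical_eq_jacobson, Ideal.radical_bot_of_isReduced]
  have h3 : r ∉ (⊥ : Ideal A).jacobson := by
    rw [h2, Ideal.mem_bot]
    exact hr
  obtain ⟨m, hm, hrm⟩ : ∃ m : Ideal A, m.IsMaximal ∧ r ∉ m := by
    by_contra hcon
    push Not at hcon
    apply h3
    rw [Ideal.jacobson, Submodule.mem_sInf]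
    rintro p ⟨-, hp⟩
    exact hcon p hp
  let _ : Field (A ⧸ m) := Ideal.Quotient.field m
  have h4 : Module.Finite k (A ⧸ m) := finite_of_finite_type_of_isJacobsonRing k (A ⧸ m)
  have h5 : Algebra.IsIntegral k (A ⧸ m) := Algebra.IsIntegral.of_finite k (A ⧸ m)
  have h6 := IsAlgClosed.algebraMap_bijective_of_isIntegral (k := k) (K := A ⧸ m)
  let e : k ≃ₐ[k] (A ⧸ m) := AlgEquiv.ofBijective (Algebra.ofId k (A ⧸ m)) h6
  refine ⟨(e.symm : (A ⧸ m) →ₐ[k] k).comp (Ideal.Quotient.mkₐ k m), fun h => hrm ?_⟩
  have h7 : e.symm (Ideal.Quotient.mk m r) = 0 := h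
  rw [EmbeddingLike.map_eq_zero_iff] at h7
  exact Ideal.Quotient.eq_zero_iff_mem.1 h7

end Pool.Agent.E8helper90.AF
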