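import Pool.Agent.E8helper90.AF.Hgt

/-!
Ultraproducts of function fields with derivations.
-/

set_option autoImplicit false

namespace Pool.Agent.E8helper90.AF

open FF Filter MvPolynomial Pool.Agent.W603.LV Pool.Agent.W603.PV
open Pool.Agent.W603.CY (hgt_add_le hgt_mul_le ui mem_ui UL um um_surj um_eq um_zero_iff um_ne_iff
  um_add um_mul um_neg um_pow um_sum um_inv um_div um_alg um_aeval small mem_small)

section der

variable {k : Type} [Field k] {L : ℕ → Type} [∀ i, Field (L i)] [∀ i, Algebra k (L i)]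

theorem um_smul (c : k) (z : ∀ i, L i) : um (fun i => c • z i) = c • um z := by
  rw [Algebra.smul_def, ← um_alg, ← um_mul]
  congr 1
  funext i
  rw [Algebra.smul_def]

/-- the derivative of a class -/
noncomputable def dU (D : ∀ i, Derivation k (L i) (L i)) (z : UL L) : UL L :=
  um fun i => D i ((um_surj z).choose i)

theorem dU_um (D : ∀ i, Derivation k (L i) (L i)) (z : ∀ i, L i) :
    dU D (um z) = um fun i => D i (z i) := by
  unfold dU
  rw [um_eq]
  filter_upwards [um_eq.1 (um_surj (um z)).choose_spec] with i hi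
  rw [hi]

/-- the derivation of the ultraproduct -/
noncomputable def DU (D : ∀ i, Derivation k (L i) (L i)) : Derivation k (UL L) (UL L) :=
  Derivation.mk'
    { toFun := dU D
      map_add' := by
        intro a b
        obtain ⟨a, rfl⟩ := um_surj a
        obtain ⟨b, rfl⟩ := um_surj b
        rw [← um_add, dU_um, dU_um, dU_um, ← um_add]
        congr 1
        funext i
        rw [map_add]
      map_smul' := by
        intro c a
        obtain ⟨a, rfl⟩ := um_surj a
        rw [← um_smul, dU_um, dU_um, RingHom.id_apply, ← um_smul]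
        congr 1
        funext i
        rw [Derivation.map_smul] }
    (by
      intro a b
      obtain ⟨a, rfl⟩ := um_surj a
      obtain ⟨b, rfl⟩ := um_surj b
      change dU D (um a * um b) = um a • dU D (um b) + um b • dU D (um a)
      rw [← um_mul, dU_um, dU_um, dU_um, smul_eq_mul, smul_eq_mul, ← um_mul, ← um_mul, ← um_add]
      congr 1
      funext i
      rw [Derivation.leibniz, smul_eq_mul, smul_eq_mul])

theorem DU_um (D : ∀ i, Derivation k (L i) (L i)) (z : ∀ i, L i) :
    DU D (um z) = um fun i => D i (z i) := dU_um D z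

theorem um_prod {J : Type} (s : Finset J) (x : J → ∀ i, L i) :
    um (fun i => ∏ j ∈ s, x j i) = ∏ j ∈ s, um (x j) := by
  have h : (fun i => ∏ j ∈ s, x j i) = ∏ j ∈ s, x j := by
    funext i
    rw [Finset.prod_apply]
  unfold um
  rw [h, map_prod]

theorem um_zero : um (fun i => (0 : L i)) = 0 := map_zero (Ideal.Quotient.mk (ui L))

variable [IsAlgClosed k] [CharZero k] [∀ i, IsFF k (L i)]

/-- the field of the elements of small height is algebraically closed in the ultraproduct -/
theorem small_closed {χ : ℕ → ℤ} (hχ : ∀ i, 0 ≤ χ i) {z : UL L}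
    (hz : IsAlgebraic (small χ hχ : IntermediateField k (UL L)) z) :
    z ∈ (small χ hχ : IntermediateField k (UL L)) := by
  obtain ⟨p, hp, hp0⟩ := hz
  obtain ⟨w, rfl⟩ := um_surj z
  have h1 : ∀ t : ℕ, ∃ e : ∀ i, L i, um e = ((p.coeff t : (small χ hχ : IntermediateField k (UL L))) : UL L) ∧
      ∃ B : ℕ, ∀ᶠ i in (hyperfilter ℕ : Filter ℕ), hgt k (e i) ≤ B * χ i := by
    intro t
    exact (p.coeff t).2
  choose e he B hB using h1
  have h2 : um (fun i => ∑ t ∈ Finset.range (p.natDegree + 1), e t i * w i ^ t) = 0 := by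
    rw [um_sum (Finset.range (p.natDegree + 1)) (fun t i => e t i * w i ^ t)]
    rw [Polynomial.aeval_eq_sum_range] at hp0
    rw [← hp0]
    refine Finset.sum_congr rfl fun t _ => ?_
    rw [um_mul, um_pow, he]
    rfl
  have h3 : um (e p.natDegree) ≠ 0 := by
    rw [he]
    intro h
    have h4 : p.coeff p.natDegree = 0 := Subtype.ext h
    exact hp (Polynomial.leadingCoeff_eq_zero.1 h4)
  rw [mem_small]
  refine ⟨B p.natDegree + ∑ t ∈ Finset.range p.natDegree, B t, ?_⟩
  have h5 : ∀ᶠ i in (hyperfilter ℕ : Filter ℕ), ∀ t ∈ Finset.range (p.natDegree + 1),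
      hgt k (e t i) ≤ B t * χ i := (Filter.eventually_all_finset _).2 fun t _ => hB t
  filter_upwards [um_zero_iff.1 h2, um_ne_iff.1 h3, h5] with i q1 q2 q3
  refine (hgt_root (fun t => e t i) q2 (w i) q1).trans ?_
  push_cast
  rw [add_mul, Finset.sum_mul]
  refine add_le_add (q3 _ (Finset.mem_range.2 (Nat.lt_succ_self _)))
    (Finset.sum_le_sum fun t ht => q3 t (Finset.mem_range.2 ?_))
  have := Finset.mem_range.1 ht
  omega

end der

section box

variable {σ : Type} [Fintype σ]

/-- the exponents with bounded entries -/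
noncomputable def box (σ : Type) [Fintype σ] (D : ℕ) : Finset (σ →₀ ℕ) := by
  classical
  exact (Fintype.piFinset fun _ : σ => Finset.range (D + 1)).map
    (Finsupp.equivFunOnFinite.symm).toEmbedding

theorem mem_box {D : ℕ} {α : σ →₀ ℕ} : α ∈ box σ D ↔ ∀ s, α s ≤ D := by
  classical
  unfold box
  rw [Finset.mem_map]
  constructor
  · rintro ⟨β, hβ, rfl⟩ s
    have h1 := Finset.mem_range.1 (Fintype.mem_piFinset.1 hβ s)
    have h2 : (Finsupp.equivFunOnFinite.symm β) s = β s := rfl
    change (Finsupp.equivFunOnFinite.symm β) s ≤ D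
    rw [h2]
    omega
  · intro h
    refine ⟨fun s => α s, Fintype.mem_piFinset.2 fun s => Finset.mem_range.2 (by
      have := h s
      omega), ?_⟩
    ext s
    rfl

theorem support_box {R : Type} [CommSemiring R] {D : ℕ} {P : MvPolynomial σ R}
    (hP : P.totalDegree ≤ D) : P.support ⊆ box σ D := by
  intro α hα
  rw [mem_box]
  intro s
  have h1 := le_totalDegree hα
  have h2 : α s ≤ α.sum fun _ e => e := by
    by_cases hs : s ∈ α.support
    · exact Finset.single_le_sum (f := fun t => α t) (fun _ _ => Nat.zero_le _) hs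
    · rw [Finsupp.notMem_support_iff.1 hs]
      exact Nat.zero_le _
  omega

theorem eval_box {R : Type} [CommSemiring R] {D : ℕ} {P : MvPolynomial σ R}
    (hP : P.totalDegree ≤ D) (g : σ → R) :
    eval g P = ∑ α ∈ box σ D, P.coeff α * ∏ s, g s ^ α s := by
  rw [eval_eq']
  refine Finset.sum_subset (support_box hP) fun α _ hα => ?_
  rw [notMem_support_iff.1 hα, zero_mul]

end box

section cst

variable {k K : Type} [Field k] [Field K] [Algebra k K] [CharZero k] [IsFF k K] [IsAlgClosed k]

omit [IsAlgClosed k] in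
theorem hgt_const {z : K} (hz : ∃ c : k, z = algebraMap k K c) : hgt k z = 0 := by
  obtain ⟨c, rfl⟩ := hz
  exact hgt_algebraic (isAlgebraic_algebraMap c)

theorem hgt_div_le (a b : K) : hgt k (a / b) ≤ hgt k a + hgt k b := by
  rw [div_eq_mul_inv]
  refine (hgt_mul_le _ _).trans ?_
  rw [hgt_inv]

omit [IsAlgClosed k] in
/-- the height of a value of a polynomial at a constant point -/
theorem hgt_eval_const {σ : Type} [Fintype σ] {D : ℕ} {P : MvPolynomial σ K}
    (hP : P.totalDegree ≤ D) {d : ℕ} (hd : ∀ α, hgt k (P.coeff α) ≤ d) {g : σ → K}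
    (hg : ∀ s, ∃ c : k, g s = algebraMap k K c) : hgt k (eval g P) ≤ (box σ D).card * d := by
  have h1 := hgt_mvpolyF (k := k) g P
  have h2 : (aeval g P : K) = eval g P := by
    rw [aeval_def]
    rfl
  rw [h2] at h1
  have h3 : ∑ a, hgt k (g a) = 0 := Finset.sum_eq_zero fun s _ => hgt_const (hg s)
  rw [h3, mul_zero, zero_add] at h1
  refine h1.trans ?_
  have h4 : ∑ α ∈ P.support, hgt k (algebraMap K K (P.coeff α)) ≤ ∑ α ∈ P.support, (d : ℤ) :=
    Finset.sum_le_sum fun α _ => hd α
  refine h4.trans ?_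
  rw [Finset.sum_const, nsmul_eq_mul]
  have h5 : ((P.support.card : ℕ) : ℤ) ≤ (box σ D).card := by
    exact_mod_cast Finset.card_le_card (support_box hP)
  exact mul_le_mul_of_nonneg_right h5 (by positivity)

theorem pht_const {N : ℕ} {σ : Type} [Fintype σ] {D : ℕ} {P : Fin (N + 1) → MvPolynomial σ K}
    (hP : ∀ j, (P j).totalDegree ≤ D) {d : ℕ} (hd : ∀ j, ∀ α, hgt k ((P j).coeff α) ≤ d)
    {g : σ → K} (hg : ∀ s, ∃ c : k, g s = algebraMap k K c) (h0 : ∃ j, eval g (P j) ≠ 0) :
    pht k (fun j => eval g (P j)) ≤ ((N + 1) * (2 * (box σ D).card) : ℕ) * d := by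
  obtain ⟨l, hl⟩ := h0
  have h1 := pht_le (k := k) (fun j => eval g (P j)) hl
  refine h1.trans ?_
  have h2 : ∀ j, hgt k (eval g (P j) / eval g (P l)) ≤ 2 * (box σ D).card * d := by
    intro j
    refine (hgt_div_le _ _).trans ?_
    have h3 := hgt_eval_const (hP j) (hd j) hg
    have h4 := hgt_eval_const (hP l) (hd l) hg
    linarith
  refine (Finset.sum_le_sum fun j _ => h2 j).trans (le_of_eq ?_)
  rw [Finset.sum_const, Finset.card_univ, Fintype.card_fin, nsmul_eq_mul]
  push_cast
  ring

omit [CharZero k] [IsFF k K] in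
/-- the second coordinate of a constant point -/
theorem const_y {x y : K} {a b : k}
    (hxy : y ^ 2 = x ^ 3 + algebraMap k K a * x + algebraMap k K b)
    (hx : ∃ c : k, x = algebraMap k K c) : ∃ c : k, y = algebraMap k K c := by
  obtain ⟨c, rfl⟩ := hx
  have h1 : y ^ 2 = algebraMap k K (c ^ 3 + a * c + b) := by
    rw [hxy]
    simp only [map_add, map_mul, map_pow]
  have h2 : IsAlgebraic k (y ^ 2) := by
    rw [h1]
    exact isAlgebraic_algebraMap _
  have h3 : IsAlgebraic k y := h2.of_pow (by norm_num)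
  have h4 := IsAlgClosed.degree_eq_one_of_irreducible k (minpoly.irreducible h3.isIntegral)
  obtain ⟨c', hc'⟩ := minpoly.mem_range_of_degree_eq_one k y h4
  exact ⟨c', hc'.symm⟩

end cst

end Pool.Agent.E8helper90.AF
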