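import Pool.Agent.W603.CX.Basic

/-!
Function fields generated by points of cubics and units with vector fields: the genus is at most
one.
-/

set_option autoImplicit false

namespace Pool.Agent.E8helper90.AF

open FF Pool.Agent.W603.LV Pool.Agent.W603.PV

variable {k K : Type} [Field k] [Field K] [Algebra k K]

/-- the regular functions -/
def Oa (P : Place k K) : Subalgebra k K where
  carrier := {g | Ge P 0 g}
  mul_mem' := fun ha hb => by
    have := Ge.mul ha hb
    rwa [add_zero] at this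
  add_mem' := fun ha hb => Ge.add ha hb
  algebraMap_mem' := fun c => Ge.const c

theorem mem_Oa {P : Place k K} {g : K} : g ∈ Oa P ↔ Ge P 0 g := Iff.rfl

/-- a derivation maps a subalgebra to itself if it maps the generators to the subalgebra -/
theorem der_adjoin (D : Derivation k K K) {G : Set K}
    (h : ∀ g ∈ G, D g ∈ Algebra.adjoin k G) {g : K} (hg : g ∈ Algebra.adjoin k G) :
    D g ∈ Algebra.adjoin k G := by
  induction hg using Algebra.adjoin_induction with
  | mem x hx => exact h x hx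
  | algebraMap r => rw [D.map_algebraMap]; exact Subalgebra.zero_mem _
  | add x y hx hy ihx ihy => rw [map_add]; exact Subalgebra.add_mem _ ihx ihy
  | mul x y hx hy ihx ihy =>
    rw [D.leibniz, smul_eq_mul, smul_eq_mul]
    exact Subalgebra.add_mem _ (Subalgebra.mul_mem _ hx ihy) (Subalgebra.mul_mem _ hy ihx)

variable [CharZero k] [IsFF k K] [IsAlgClosed k]

/-- a derivation preserving a ring of regular functions that generates the field is regular -/
theorem vo_nonneg (P : Place k K) {D : Derivation k K K} (hD : D ≠ 0) (A : Subalgebra k K)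
    (hA : ∀ g ∈ A, Ge P 0 g) (hDA : ∀ g ∈ A, D g ∈ A)
    (hgen : ∀ g : K, ∃ a ∈ A, ∃ b ∈ A, g = a / b) : 0 ≤ vo P D := by
  by_contra hcon
  push Not at hcon
  obtain ⟨π, hπ0, hπ⟩ := P.surj
  obtain ⟨a, ha, b, hb, hab⟩ := hgen π
  have ha0 : a ≠ 0 := by
    rintro rfl
    rw [zero_div] at hab
    exact hπ0 hab
  have hb0 : b ≠ 0 := by
    rintro rfl
    rw [div_zero] at hab
    exact hπ0 hab
  obtain ⟨g, hg, hg0, hgd⟩ : ∃ g ∈ A, g ≠ 0 ∧ ¬ (1 - vo P D) ∣ P.ord g := by
    by_contra h
    push Not at h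
    have h1 := h a ha ha0
    have h2 := h b hb hb0
    have h3 := P.ord_div ha0 hb0
    rw [← hab, hπ] at h3
    have h4 : (1 - vo P D) ∣ 1 := by
      have h5 := dvd_sub h1 h2
      rwa [← h3] at h5
    have := Int.le_of_dvd one_pos h4
    omega
  have key : ∀ m : ℕ, ∃ h ∈ A, h ≠ 0 ∧ P.ord h = P.ord g - m * (1 - vo P D) := by
    intro m
    induction m with
    | zero => exact ⟨g, hg, hg0, by simp⟩
    | succ m ih =>
      obtain ⟨h, hh, hh0, e⟩ := ih
      have h1 : P.ord h ≠ 0 := by
        intro h2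
        rw [h2] at e
        exact hgd ⟨m, by linarith⟩
      obtain ⟨h2, h3⟩ := ord_der P hD h1
      refine ⟨D h, hDA h hh, h2, ?_⟩
      rw [h3, e]
      push_cast
      ring
  obtain ⟨h, hh, hh0, e⟩ := key ((P.ord g).toNat + 1)
  have h1 := (hA h hh).resolve_left hh0
  have h2 := (hA g hg).resolve_left hg0
  rw [e] at h1
  push_cast at h1
  rw [Int.toNat_of_nonneg h2] at h1
  nlinarith

omit [CharZero k] [IsFF k K] [IsAlgClosed k] in
/-- at a pole of the first coordinate -/
theorem pole_coords (P : Place k K) {x y : K} {a b : k}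
    (hxy : y ^ 2 = x ^ 3 + algebraMap k K a * x + algebraMap k K b) (hx : ¬ Ge P 0 x) :
    y ≠ 0 ∧ 0 < P.ord (x / y) ∧ P.ord y < 0 := by
  have hx0 : x ≠ 0 := fun h => hx (Or.inl h)
  have hxn : P.ord x < 0 := by
    by_contra h
    exact hx (Or.inr (not_lt.1 h))
  -- the order of the right side
  have h1 : Ge P (P.ord (x ^ 3) + 1) (algebraMap k K a * x + algebraMap k K b) := by
    have h2 : Ge P (P.ord x) (algebraMap k K a * x) := by
      have := (Ge.const (P := P) a).mul (Or.inr le_rfl : Ge P (P.ord x) x)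
      rwa [zero_add] at this
    have h3 : Ge P (P.ord x) (algebraMap k K b) := (Ge.const (P := P) b).mono hxn.le
    refine (h2.add h3).mono ?_
    rw [P.ord_pow]
    push_cast
    linarith
  have h2 : x ^ 3 + (algebraMap k K a * x + algebraMap k K b) ≠ 0 ∧
      P.ord (x ^ 3 + (algebraMap k K a * x + algebraMap k K b)) = P.ord (x ^ 3) := by
    by_cases h0 : algebraMap k K a * x + algebraMap k K b = 0
    · rw [h0, add_zero]
      exact ⟨pow_ne_zero _ hx0, rfl⟩
    · exact P.ord_add_eq (pow_ne_zero _ hx0) h0 (by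
        have := h1.resolve_left h0
        omega)
  rw [← add_assoc, ← hxy] at h2
  have hy0 : y ≠ 0 := fun h => h2.1 (by rw [h]; ring)
  have h3 := h2.2
  rw [P.ord_pow, P.ord_pow] at h3
  push_cast at h3
  refine ⟨hy0, ?_, by linarith⟩
  rw [P.ord_div hx0 hy0]
  linarith

omit [CharZero k] [IsFF k K] [IsAlgClosed k] in
theorem reg_coords (P : Place k K) {x y : K} {a b : k}
    (hxy : y ^ 2 = x ^ 3 + algebraMap k K a * x + algebraMap k K b) (hx : Ge P 0 x) :
    Ge P 0 y := by
  have h1 : Ge P 0 (y ^ 2) := by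
    rw [hxy]
    have h2 := hx.pow 3
    have h3 := (Ge.const (P := P) a).mul hx
    rw [mul_zero] at h2
    rw [add_zero] at h3
    exact (h2.add h3).add (Ge.const b)
  by_cases hy : y = 0
  · exact Or.inl hy
  · right
    have h2 := h1.resolve_left (pow_ne_zero _ hy)
    rw [P.ord_pow] at h2
    push_cast at h2
    linarith

/-- the function fields with invariant vector fields -/
theorem canDeg_nonpos {τ σ : Type} {D : Derivation k K K} (hD : D ≠ 0)
    (x y : τ → K) (a b w : τ → k)
    (hxy : ∀ j, y j ^ 2 = x j ^ 3 + algebraMap k K (a j) * x j + algebraMap k K (b j))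
    (hDx : ∀ j, D (x j) = algebraMap k K (w j) * y j)
    (hDy : ∀ j, 2 * D (y j) = algebraMap k K (w j) * (3 * x j ^ 2 + algebraMap k K (a j)))
    (u : σ → K) (v : σ → k) (hu : ∀ j, u j ≠ 0) (hDu : ∀ j, D (u j) = algebraMap k K (v j) * u j)
    (hgen : IntermediateField.adjoin k (Set.range x ∪ Set.range y ∪ Set.range u) = ⊤) :
    canDeg k K ≤ 0 := by
  have hch : CharZero K := charZero_of_injective_algebraMap (algebraMap k K).injective
  rw [canDeg_eq hD, neg_nonpos]
  refine finsum_nonneg fun P => ?_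
  obtain ⟨G, hG⟩ : ∃ G : Set K, G = {g | (∃ j, Ge P 0 (x j) ∧ (g = x j ∨ g = y j)) ∨
      (∃ j, ¬ Ge P 0 (x j) ∧ (g = x j / y j ∨ g = (y j)⁻¹)) ∨
      ∃ j, (0 ≤ P.ord (u j) ∧ g = u j) ∨ (P.ord (u j) < 0 ∧ g = (u j)⁻¹)} := ⟨_, rfl⟩
  have g1 : ∀ j, Ge P 0 (x j) → x j ∈ G := fun j hj => by
    rw [hG]; exact Or.inl ⟨j, hj, Or.inl rfl⟩
  have g2 : ∀ j, Ge P 0 (x j) → y j ∈ G := fun j hj => by
    rw [hG]; exact Or.inl ⟨j, hj, Or.inr rfl⟩
  have g3 : ∀ j, ¬ Ge P 0 (x j) → x j / y j ∈ G := fun j hj => by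
    rw [hG]; exact Or.inr (Or.inl ⟨j, hj, Or.inl rfl⟩)
  have g4 : ∀ j, ¬ Ge P 0 (x j) → (y j)⁻¹ ∈ G := fun j hj => by
    rw [hG]; exact Or.inr (Or.inl ⟨j, hj, Or.inr rfl⟩)
  have g5 : ∀ j, 0 ≤ P.ord (u j) → u j ∈ G := fun j hj => by
    rw [hG]; exact Or.inr (Or.inr ⟨j, Or.inl ⟨hj, rfl⟩⟩)
  have g6 : ∀ j, P.ord (u j) < 0 → (u j)⁻¹ ∈ G := fun j hj => by
    rw [hG]; exact Or.inr (Or.inr ⟨j, Or.inr ⟨hj, rfl⟩⟩)
  have hs := Algebra.subset_adjoin (R := k) (s := G)
  have hc : ∀ c : k, algebraMap k K c ∈ Algebra.adjoin k G := fun c => Subalgebra.algebraMap_mem _ c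
  have h2 : (2 : K) ≠ 0 := two_ne_zero
  have hhalf : algebraMap k K (1 / 2) * 2 = 1 := by
    rw [map_div₀, map_one, map_ofNat, div_mul_cancel₀ _ h2]
  refine vo_nonneg P hD (Algebra.adjoin k G) ?_ ?_ ?_
  · -- regular
    have h1 : Algebra.adjoin k G ≤ Oa P := by
      refine Algebra.adjoin_le fun g hg => ?_
      rw [hG] at hg
      change Ge P 0 g
      rcases hg with ⟨j, hj, rfl | rfl⟩ | ⟨j, hj, rfl | rfl⟩ | ⟨j, ⟨hj, rfl⟩ | ⟨hj, rfl⟩⟩
      · exact hj
      · exact reg_coords P (hxy j) hj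
      · exact Or.inr (pole_coords P (hxy j) hj).2.1.le
      · refine Or.inr ?_
        rw [P.ord_inv]
        have := (pole_coords P (hxy j) hj).2.2
        omega
      · exact Or.inr hj
      · refine Or.inr ?_
        rw [P.ord_inv]
        omega
    exact fun g hg => h1 hg
  · -- stable
    refine fun g hg => der_adjoin D ?_ hg
    intro g hg
    rw [hG] at hg
    rcases hg with ⟨j, hj, rfl | rfl⟩ | ⟨j, hj, rfl | rfl⟩ | ⟨j, ⟨hj, rfl⟩ | ⟨hj, rfl⟩⟩
    · rw [hDx]
      exact Subalgebra.mul_mem _ (hc _) (hs (g2 j hj))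
    · have e : D (y j) = algebraMap k K (1 / 2 * w j) *
          (algebraMap k K 3 * x j ^ 2 + algebraMap k K (a j)) := by
        rw [map_mul, map_ofNat]
        linear_combination (algebraMap k K (1 / 2)) * hDy j - D (y j) * hhalf
      rw [e]
      exact Subalgebra.mul_mem _ (hc _) (Subalgebra.add_mem _ (Subalgebra.mul_mem _ (hc _)
        (Subalgebra.pow_mem _ (hs (g1 j hj)) 2)) (hc _))
    · obtain ⟨hy0, -, -⟩ := pole_coords P (hxy j) hj
      have e : D (x j / y j) = algebraMap k K (1 / 2 * w j) * (-1 +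
          algebraMap k K (2 * a j) * (x j / y j) * (y j)⁻¹ +
          algebraMap k K (3 * b j) * (y j)⁻¹ ^ 2) := by
        have e1 : D (x j / y j) * y j ^ 2 = y j * D (x j) - x j * D (y j) := by
          have e2 : x j = x j / y j * y j := (div_mul_cancel₀ _ hy0).symm
          have e3 : D (x j) = (x j / y j) * D (y j) + y j * D (x j / y j) := by
            conv_lhs => rw [e2]
            rw [D.leibniz, smul_eq_mul, smul_eq_mul]
          rw [e3]
          field_simp
          ring
        have h5 : y j ^ 2 ≠ 0 := pow_ne_zero _ hy0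
        apply mul_right_cancel₀ h5
        rw [e1, hDx]
        simp only [map_mul, map_ofNat]
        have e4 : (-1 + 2 * algebraMap k K (a j) * (x j / y j) * (y j)⁻¹ +
            3 * algebraMap k K (b j) * (y j)⁻¹ ^ 2) * y j ^ 2 =
            -y j ^ 2 + 2 * algebraMap k K (a j) * x j + 3 * algebraMap k K (b j) := by
          field_simp
        rw [mul_assoc, e4]
        linear_combination (-x j * algebraMap k K (1 / 2)) * hDy j +
          (x j * D (y j) - algebraMap k K (w j) * y j ^ 2) * hhalf +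
          (3 * algebraMap k K (w j) * algebraMap k K (1 / 2)) * hxy j
      rw [e]
      refine Subalgebra.mul_mem _ (hc _) (Subalgebra.add_mem _ (Subalgebra.add_mem _
        (Subalgebra.neg_mem _ (Subalgebra.one_mem _)) (Subalgebra.mul_mem _ (Subalgebra.mul_mem _
        (hc _) (hs (g3 j hj))) (hs (g4 j hj)))) (Subalgebra.mul_mem _ (hc _)
        (Subalgebra.pow_mem _ (hs (g4 j hj)) 2)))
    · obtain ⟨hy0, -, -⟩ := pole_coords P (hxy j) hj
      have e : D (y j)⁻¹ = -(algebraMap k K (1 / 2 * w j) * (algebraMap k K 3 * (x j / y j) ^ 2 +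
          algebraMap k K (a j) * (y j)⁻¹ ^ 2)) := by
        have h5 : y j ^ 2 ≠ 0 := pow_ne_zero _ hy0
        rw [Derivation.leibniz_inv]
        apply mul_right_cancel₀ h5
        simp only [map_mul, map_ofNat, smul_eq_mul]
        field_simp
        linear_combination (-algebraMap k K (1 / 2)) * hDy j + D (y j) * hhalf
      rw [e]
      exact Subalgebra.neg_mem _ (Subalgebra.mul_mem _ (hc _) (Subalgebra.add_mem _
        (Subalgebra.mul_mem _ (hc _) (Subalgebra.pow_mem _ (hs (g3 j hj)) 2))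
        (Subalgebra.mul_mem _ (hc _) (Subalgebra.pow_mem _ (hs (g4 j hj)) 2))))
    · rw [hDu]
      exact Subalgebra.mul_mem _ (hc _) (hs (g5 j hj))
    · have e : D (u j)⁻¹ = algebraMap k K (-v j) * (u j)⁻¹ := by
        rw [Derivation.leibniz_inv, hDu, smul_eq_mul, map_neg]
        have := hu j
        field_simp
      rw [e]
      exact Subalgebra.mul_mem _ (hc _) (hs (g6 j hj))
  · -- generates
    have h1 : IntermediateField.adjoin k G = ⊤ := by
      rw [eq_top_iff, ← hgen]
      rw [IntermediateField.adjoin_le_iff]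
      have hs' := IntermediateField.subset_adjoin k G
      have q1 : ∀ j, x j ∈ IntermediateField.adjoin k G ∧ y j ∈ IntermediateField.adjoin k G := by
        intro j
        by_cases hj : Ge P 0 (x j)
        · exact ⟨hs' (g1 j hj), hs' (g2 j hj)⟩
        · obtain ⟨hy0, -, -⟩ := pole_coords P (hxy j) hj
          have h3 : y j ∈ IntermediateField.adjoin k G := by
            have := IntermediateField.inv_mem _ (hs' (g4 j hj))
            rwa [inv_inv] at this
          refine ⟨?_, h3⟩
          have := IntermediateField.mul_mem _ (hs' (g3 j hj)) h3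
          rwa [div_mul_cancel₀ _ hy0] at this
      rintro g ((⟨j, rfl⟩ | ⟨j, rfl⟩) | ⟨j, rfl⟩)
      · exact (q1 j).1
      · exact (q1 j).2
      · by_cases hj : 0 ≤ P.ord (u j)
        · exact hs' (g5 j hj)
        · have := IntermediateField.inv_mem _ (hs' (g6 j (not_le.1 hj)))
          rwa [inv_inv] at this
    intro g
    have h3 : g ∈ IntermediateField.adjoin k G := by
      rw [h1]
      exact IntermediateField.mem_top
    rw [IntermediateField.mem_adjoin_iff_div] at h3
    exact h3

end Pool.Agent.E8helper90.AF
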